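import Pool.Agent.H98.HL.NF0
import Pool.Agent.H98.HL.N.Cs
import Pool.Agent.H78.HL.Edge7
import Pool.Agent.H98.HL.N.Cp0
import Pool.Agent.H98.HL.N.Cp1
import Pool.Agent.H98.HL.N.Cp2
import Pool.Agent.H98.HL.N.Cp3
import Pool.Agent.H98.HL.N.Cm0
import Pool.Agent.H98.HL.N.Cm1
import Pool.Agent.H98.HL.N.Cm2
import Pool.Agent.H98.HL.N.Cm3

/-!
# Tall rectangles: the classes which are not of type F
-/

namespace Pool.Agent.H98.HL

open Pool.Agent.H78.RT
open Pool.Agent.H78.Tie
open Pool.Agent.H78.Tie.TAp
open Pool.Agent.H81.AP (LF add smul dot dot_nil dot_nil' dot_cons dot_add dot_smul AllNn AllNe)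
open Pool.Agent.H23.DT (AllNn.append)
open Pool.Agent.H78.SV (ST env rT rP sgv bT)
open Pool.Agent.H78.HL (TL OV FT Win)

variable {A : TAp} {T : A.Tie}

/-- the index of a class with a small positive wall -/
theorem small_ne' {n U S K U' S' : ℤ} (o : OV T n U S) (ha : U ≤ -A.q) (hK : IsC A K U' S' (th A K))
    (h0 : 0 < U') (h1 : U' < A.q) : th A n < th A K ∨ th A K < th A n := by
  have hne : K ≠ n := by
    intro e
    rw [e] at hK
    have h2 := dvd_sub o.cn.1.1 hK.1.1
    rw [show A.a * n - U - (A.a * n - U') = U' - U by ring] at h2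
    have h3 := Int.le_of_dvd (by linarith [A.q_pos']) h2
    have := o.U0
    have := NW A
    have := A.q_pos'
    have := W2 A
    linarith
  rcases lt_or_gt_of_ne hne with h2 | h2
  · exact Or.inr (th_lt A h2)
  · exact Or.inl (th_lt A h2)

theorem sp1 {sp xp : Bool} (h : TL T) (d : ST A T (sgv xp)) (hb : Big A) (hsg : A.sg = sgv sp)
    (hep : T.ep = sgv false) {n U S : ℤ} (o : OV T n U S)
    (hF : Fct A T n U S (fN xp true false ++ (fF true true ++ (fR 5 ++ [])))) : False := by
  rcases Fct.a (A := A) (T := T) (n := n) (U := U) (S := S) with ⟨ha, ha'⟩ | ha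
  · obtain ⟨K, U', S', hK, h0, h1, h2⟩ := exSmall A
    rcases lt_or_gt_of_ne h0 with h3 | h3
    · rcases small_ne o ha' hK h1 h3 with h4 | h4
      · exact s1P2 d hb hsg hep o.cn (hF.append ha) hK h3 h1 h4
      · exact s1P3 d hb hsg hep o.cn (hF.append ha) hK h3 h1 h4
    · exact s1P1 d hb hsg hep o.cn (hF.append ha) hK h3 h2 (small_ne' o ha' hK h3 h2)
  · exact s1a h d hb hsg hep o.cn (hF.append ha)

theorem sp3 {sp xp : Bool} (h : TL T) (d : ST A T (sgv xp)) (hb : Big A) (hsg : A.sg = sgv sp)
    (hep : T.ep = sgv false) {n U S : ℤ} (o : OV T n U S) (hU : U < 0) (hV : U + S < 0)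
    (ht : th A n < th A T.t) (hDH : A.D < A.q * A.h)
    (hF : Fct A T n U S (fN xp true true ++ (fF true true ++ (fR 5 ++ [])))) : False := by
  rcases Fct.a (A := A) (T := T) (n := n) (U := U) (S := S) with ⟨ha, ha'⟩ | ha
  · obtain ⟨K, U', S', hK, h0, h1, h2⟩ := exSmall A
    cases xp
    · have hx : T.x < 0 := by
        have := d.x0
        change 0 < -1 * T.x at this
        linarith
      rcases mq_split (A := A) (k := A.w - A.h) (OV.mq o) with e | e | e <;> rw [mul_sub] at e
      · have hf := farF (A := A) (T := T) (n := n) (U := U) e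
        rcases lt_or_gt_of_ne h0 with h3 | h3
        · rcases small_ne o ha' hK h1 h3 with h4 | h4
          · exact s3LP2 d hb hsg hep o.cn ((hF.append ha).append hf) hK h3 h1 h4
          · exact s3LP3 d hb hsg hep o.cn ((hF.append ha).append hf) hK h3 h1 h4
        · exact s3LP1 d hb hsg hep o.cn ((hF.append ha).append hf) hK h3 h2 (small_ne' o ha' hK h3 h2)
      · exact Pool.Agent.H78.HL.edgeE7 h o hep hU hV ht e hx hDH
      · have hf := nearF (A := A) (T := T) (n := n) (U := U) e
        rcases lt_or_gt_of_ne h0 with h3 | h3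
        · rcases small_ne o ha' hK h1 h3 with h4 | h4
          · exact s3mP2 d hb hsg hep o.cn ((hF.append ha).append hf) hK h3 h1 h4
          · exact s3mP3 d hb hsg hep o.cn ((hF.append ha).append hf) hK h3 h1 h4
        · exact s3mP1 d hb hsg hep o.cn ((hF.append ha).append hf) hK h3 h2 (small_ne' o ha' hK h3 h2)
    · rcases lt_or_gt_of_ne h0 with h3 | h3
      · rcases small_ne o ha' hK h1 h3 with h4 | h4
        · exact s3pP2 d hb hsg hep o.cn (hF.append ha) hK h3 h1 h4
        · exact s3pP3 d hb hsg hep o.cn (hF.append ha) hK h3 h1 h4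
      · exact s3pP1 d hb hsg hep o.cn (hF.append ha) hK h3 h2 (small_ne' o ha' hK h3 h2)
  · exact s3a h d hb hsg hep o.cn (hF.append ha)

/-- a class which overlaps `0` is of type F in the range of cases E and R -/
theorem nonF (h : TL T) {n U S : ℤ} (o : OV T n U S)
    (f : ¬ (FT T n U ∧ (A.D < A.q * A.h ∨ (T.ep = 1 ∧ U + S < 0 ∧ S ≤ A.q * A.w - A.q * A.h)))) :
    False := by
  obtain ⟨xp, d⟩ := TL.st h
  have hb := TL.big h
  have on := OV.on d o
  obtain ⟨sp, hsg⟩ : ∃ sp, A.sg = sgv sp := by
    rcases A.hsg with h | h
    · exact ⟨true, h⟩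
    · exact ⟨false, h⟩
  have hreg := regions h (A := A) (T := T) (n := n) (U := U) (S := S)
  have hn : ∀ {F : List LF}, Fct A T n U S F → Fct A T n U S (F ++ []) := fun hF => by
    rwa [List.append_nil]
  rcases T.hep with he | he
  · have hep : T.ep = sgv true := he
    rcases on.u with hu | hu
    · rcases on.v with hv | hv
      · have hN := fN_ok h d on (un := true) (vn := true) (fun _ => by linarith) (fun h => by cases h) (fun _ => by linarith) (fun h => by cases h)
        rcases fF_ok h on (hi := false) (fun _ => Or.inl ⟨he, by linarith⟩) with ⟨hf, hf', ht'⟩ | hf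
        · rcases hreg with ⟨hD, hr | hr | hr⟩ | ⟨hD, h5, hr | hr⟩
          · refine cp310 h d hb hsg hep o.cn (hN.append (hf.append (hn hr))) (nearF ?_)
            have hft : FT T n U := ⟨by rw [he]; linarith, hf' rfl⟩
            rcases mq_split (A := A) (k := A.w - A.h) (OV.mq o) with e | e | e <;> rw [mul_sub] at e
            · exact absurd ⟨hft, Or.inr ⟨he, by linarith, by linarith [A.q_pos']⟩⟩ f
            · exact absurd ⟨hft, Or.inr ⟨he, by linarith, by linarith [A.q_pos']⟩⟩ f
            · exact e
          · refine cp311 h d hb hsg hep o.cn (hN.append (hf.append (hn hr))) (nearF ?_)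
            have hft : FT T n U := ⟨by rw [he]; linarith, hf' rfl⟩
            rcases mq_split (A := A) (k := A.w - A.h) (OV.mq o) with e | e | e <;> rw [mul_sub] at e
            · exact absurd ⟨hft, Or.inr ⟨he, by linarith, by linarith [A.q_pos']⟩⟩ f
            · exact absurd ⟨hft, Or.inr ⟨he, by linarith, by linarith [A.q_pos']⟩⟩ f
            · exact e
          · refine cp312 h d hb hsg hep o.cn (hN.append (hf.append (hn hr))) (nearF ?_)
            have hft : FT T n U := ⟨by rw [he]; linarith, hf' rfl⟩
            rcases mq_split (A := A) (k := A.w - A.h) (OV.mq o) with e | e | e <;> rw [mul_sub] at e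
            · exact absurd ⟨hft, Or.inr ⟨he, by linarith, by linarith [A.q_pos']⟩⟩ f
            · exact absurd ⟨hft, Or.inr ⟨he, by linarith, by linarith [A.q_pos']⟩⟩ f
            · exact e
          · exact f ⟨⟨by rw [he]; linarith, hf' rfl⟩, Or.inl hD⟩
          · exact f ⟨⟨by rw [he]; linarith, hf' rfl⟩, Or.inl hD⟩
        · rcases hreg with ⟨hD, hr | hr | hr⟩ | ⟨hD, h5, hr | hr⟩
          · exact cp300 h d hb hsg hep o.cn (hN.append (hf.append (hn hr)))
          · exact cp301 h d hb hsg hep o.cn (hN.append (hf.append (hn hr)))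
          · exact cp302 h d hb hsg hep o.cn (hN.append (hf.append (hn hr)))
          · exact cp303 h d hb hsg hep o.cn (hN.append (hf.append (hn hr)))
          · exact cp304 h d hb hsg hep o.cn (hN.append (hf.append (hn hr)))
      · have hN := fN_ok h d on (un := true) (vn := false) (fun _ => by linarith) (fun h => by cases h) (fun h => by cases h) (fun _ => by linarith)
        rcases fF_ok h on (hi := false) (fun _ => Or.inl ⟨he, by linarith⟩) with ⟨hf, hf', ht'⟩ | hf
        · rcases hreg with ⟨hD, hr | hr | hr⟩ | ⟨hD, h5, hr | hr⟩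
          · exact cp110 h d hb hsg hep o.cn (hN.append (hf.append (hn hr)))
          · exact cp111 h d hb hsg hep o.cn (hN.append (hf.append (hn hr)))
          · exact cp112 h d hb hsg hep o.cn (hN.append (hf.append (hn hr)))
          · exact f ⟨⟨by rw [he]; linarith, hf' rfl⟩, Or.inl hD⟩
          · exact f ⟨⟨by rw [he]; linarith, hf' rfl⟩, Or.inl hD⟩
        · rcases hreg with ⟨hD, hr | hr | hr⟩ | ⟨hD, h5, hr | hr⟩
          · exact cp100 h d hb hsg hep o.cn (hN.append (hf.append (hn hr)))
          · exact cp101 h d hb hsg hep o.cn (hN.append (hf.append (hn hr)))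
          · exact cp102 h d hb hsg hep o.cn (hN.append (hf.append (hn hr)))
          · exact cp103 h d hb hsg hep o.cn (hN.append (hf.append (hn hr)))
          · exact cp104 h d hb hsg hep o.cn (hN.append (hf.append (hn hr)))
    · rcases on.v with hv | hv
      · have hN := fN_ok h d on (un := false) (vn := true) (fun h => by cases h) (fun _ => by linarith) (fun _ => by linarith) (fun h => by cases h)
        rcases fF_ok h on (hi := true) (fun h => by cases h) with ⟨hf, hf', ht'⟩ | hf
        · rcases hreg with ⟨hD, hr | hr | hr⟩ | ⟨hD, h5, hr | hr⟩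
          · exact cp210 h d hb hsg hep o.cn (hN.append (hf.append (hn hr)))
          · exact cp211 h d hb hsg hep o.cn (hN.append (hf.append (hn hr)))
          · exact cp212 h d hb hsg hep o.cn (hN.append (hf.append (hn hr)))
          · exact cp213 h d hb hsg hep o.cn (hN.append (hf.append (hn hr)))
          · exact cp214 h d hb hsg hep o.cn (hN.append (hf.append (hn hr)))
        · rcases hreg with ⟨hD, hr | hr | hr⟩ | ⟨hD, h5, hr | hr⟩
          · exact cp200 h d hb hsg hep o.cn (hN.append (hf.append (hn hr)))
          · exact cp201 h d hb hsg hep o.cn (hN.append (hf.append (hn hr)))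
          · exact cp202 h d hb hsg hep o.cn (hN.append (hf.append (hn hr)))
          · exact cp203 h d hb hsg hep o.cn (hN.append (hf.append (hn hr)))
          · exact cp204 h d hb hsg hep o.cn (hN.append (hf.append (hn hr)))
      · have hN := fN_ok h d on (un := false) (vn := false) (fun h => by cases h) (fun _ => by linarith) (fun h => by cases h) (fun _ => by linarith)
        rcases fF_ok h on (hi := true) (fun h => by cases h) with ⟨hf, hf', ht'⟩ | hf
        · rcases hreg with ⟨hD, hr | hr | hr⟩ | ⟨hD, h5, hr | hr⟩
          · exact cp010 h d hb hsg hep o.cn (hN.append (hf.append (hn hr)))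
          · exact cp011 h d hb hsg hep o.cn (hN.append (hf.append (hn hr)))
          · exact cp012 h d hb hsg hep o.cn (hN.append (hf.append (hn hr)))
          · exact cp013 h d hb hsg hep o.cn (hN.append (hf.append (hn hr)))
          · exact cp014 h d hb hsg hep o.cn (hN.append (hf.append (hn hr)))
        · rcases hreg with ⟨hD, hr | hr | hr⟩ | ⟨hD, h5, hr | hr⟩
          · exact cp000 h d hb hsg hep o.cn (hN.append (hf.append (hn hr)))
          · exact cp001 h d hb hsg hep o.cn (hN.append (hf.append (hn hr)))
          · exact cp002 h d hb hsg hep o.cn (hN.append (hf.append (hn hr)))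
          · exact cp003 h d hb hsg hep o.cn (hN.append (hf.append (hn hr)))
          · exact cp004 h d hb hsg hep o.cn (hN.append (hf.append (hn hr)))
  · have hep : T.ep = sgv false := he
    rcases on.u with hu | hu
    · rcases on.v with hv | hv
      · have hN := fN_ok h d on (un := true) (vn := true) (fun _ => by linarith) (fun h => by cases h) (fun _ => by linarith) (fun h => by cases h)
        rcases fF_ok h on (hi := true) (fun h => by cases h) with ⟨hf, hf', ht'⟩ | hf
        · rcases hreg with ⟨hD, hr | hr | hr⟩ | ⟨hD, h5, hr | hr⟩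
          · exact cm310 h d hb hsg hep o.cn (hN.append (hf.append (hn hr)))
          · exact cm311 h d hb hsg hep o.cn (hN.append (hf.append (hn hr)))
          · exact cm312 h d hb hsg hep o.cn (hN.append (hf.append (hn hr)))
          · exact sp3 h d hb hsg hep o (by linarith) (by linarith) (ht' rfl) hD
              (hN.append (hf.append (hn h5)))
          · exact sp3 h d hb hsg hep o (by linarith) (by linarith) (ht' rfl) hD
              (hN.append (hf.append (hn h5)))
        · rcases hreg with ⟨hD, hr | hr | hr⟩ | ⟨hD, h5, hr | hr⟩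
          · exact cm300 h d hb hsg hep o.cn (hN.append (hf.append (hn hr)))
          · exact cm301 h d hb hsg hep o.cn (hN.append (hf.append (hn hr)))
          · exact cm302 h d hb hsg hep o.cn (hN.append (hf.append (hn hr)))
          · exact cm303 h d hb hsg hep o.cn (hN.append (hf.append (hn hr)))
          · exact cm304 h d hb hsg hep o.cn (hN.append (hf.append (hn hr)))
      · have hN := fN_ok h d on (un := true) (vn := false) (fun _ => by linarith) (fun h => by cases h) (fun h => by cases h) (fun _ => by linarith)
        rcases fF_ok h on (hi := true) (fun h => by cases h) with ⟨hf, hf', ht'⟩ | hf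
        · rcases hreg with ⟨hD, hr | hr | hr⟩ | ⟨hD, h5, hr | hr⟩
          · exact cm110 h d hb hsg hep o.cn (hN.append (hf.append (hn hr)))
          · exact cm111 h d hb hsg hep o.cn (hN.append (hf.append (hn hr)))
          · exact cm112 h d hb hsg hep o.cn (hN.append (hf.append (hn hr)))
          · exact sp1 h d hb hsg hep o (hN.append (hf.append (hn h5)))
          · exact sp1 h d hb hsg hep o (hN.append (hf.append (hn h5)))
        · rcases hreg with ⟨hD, hr | hr | hr⟩ | ⟨hD, h5, hr | hr⟩
          · exact cm100 h d hb hsg hep o.cn (hN.append (hf.append (hn hr)))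
          · exact cm101 h d hb hsg hep o.cn (hN.append (hf.append (hn hr)))
          · exact cm102 h d hb hsg hep o.cn (hN.append (hf.append (hn hr)))
          · exact cm103 h d hb hsg hep o.cn (hN.append (hf.append (hn hr)))
          · exact cm104 h d hb hsg hep o.cn (hN.append (hf.append (hn hr)))
    · rcases on.v with hv | hv
      · have hN := fN_ok h d on (un := false) (vn := true) (fun h => by cases h) (fun _ => by linarith) (fun _ => by linarith) (fun h => by cases h)
        rcases fF_ok h on (hi := false) (fun _ => Or.inr ⟨he, by linarith⟩) with ⟨hf, hf', ht'⟩ | hf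
        · rcases hreg with ⟨hD, hr | hr | hr⟩ | ⟨hD, h5, hr | hr⟩
          · exact cm210 h d hb hsg hep o.cn (hN.append (hf.append (hn hr)))
          · exact cm211 h d hb hsg hep o.cn (hN.append (hf.append (hn hr)))
          · exact cm212 h d hb hsg hep o.cn (hN.append (hf.append (hn hr)))
          · exact f ⟨⟨by rw [he]; linarith, hf' rfl⟩, Or.inl hD⟩
          · exact f ⟨⟨by rw [he]; linarith, hf' rfl⟩, Or.inl hD⟩
        · rcases hreg with ⟨hD, hr | hr | hr⟩ | ⟨hD, h5, hr | hr⟩
          · exact cm200 h d hb hsg hep o.cn (hN.append (hf.append (hn hr)))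
          · exact cm201 h d hb hsg hep o.cn (hN.append (hf.append (hn hr)))
          · exact cm202 h d hb hsg hep o.cn (hN.append (hf.append (hn hr)))
          · exact cm203 h d hb hsg hep o.cn (hN.append (hf.append (hn hr)))
          · exact cm204 h d hb hsg hep o.cn (hN.append (hf.append (hn hr)))
      · have hN := fN_ok h d on (un := false) (vn := false) (fun h => by cases h) (fun _ => by linarith) (fun h => by cases h) (fun _ => by linarith)
        rcases fF_ok h on (hi := false) (fun _ => Or.inr ⟨he, by linarith⟩) with ⟨hf, hf', ht'⟩ | hf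
        · rcases hreg with ⟨hD, hr | hr | hr⟩ | ⟨hD, h5, hr | hr⟩
          · exact cm010 h d hb hsg hep o.cn (hN.append (hf.append (hn hr)))
          · exact cm011 h d hb hsg hep o.cn (hN.append (hf.append (hn hr)))
          · exact cm012 h d hb hsg hep o.cn (hN.append (hf.append (hn hr)))
          · exact f ⟨⟨by rw [he]; linarith, hf' rfl⟩, Or.inl hD⟩
          · exact f ⟨⟨by rw [he]; linarith, hf' rfl⟩, Or.inl hD⟩
        · rcases hreg with ⟨hD, hr | hr | hr⟩ | ⟨hD, h5, hr | hr⟩
          · exact cm000 h d hb hsg hep o.cn (hN.append (hf.append (hn hr)))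
          · exact cm001 h d hb hsg hep o.cn (hN.append (hf.append (hn hr)))
          · exact cm002 h d hb hsg hep o.cn (hN.append (hf.append (hn hr)))
          · exact cm003 h d hb hsg hep o.cn (hN.append (hf.append (hn hr)))
          · exact cm004 h d hb hsg hep o.cn (hN.append (hf.append (hn hr)))

end Pool.Agent.H98.HL
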