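import Pool.Agent.H98.HL.Go
import Pool.Agent.H98.HL.W.T0
import Pool.Agent.H98.HL.W.T1
import Pool.Agent.H98.HL.W.T2
import Pool.Agent.H98.HL.W.T3
import Pool.Agent.H98.HL.W.T4
import Pool.Agent.H98.HL.W.T5
import Pool.Agent.H98.HL.W.T6
import Pool.Agent.H98.HL.W.T7
import Pool.Agent.H98.HL.W.T8

/-!
# Tall rectangles, `ep = 1`: no class in the column window
-/

namespace Pool.Agent.H98.HL

open Pool.Agent.H78.RT
open Pool.Agent.H78.Tie
open Pool.Agent.H78.Tie.TAp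
open Pool.Agent.H81.AP (LF add smul dot dot_nil dot_nil' dot_cons dot_add dot_smul AllNn AllNe)
open Pool.Agent.H23.DT (AllNn.append)
open Pool.Agent.H78.SV (ST env rT rP sgv bT)
open Pool.Agent.H78.HL (TL OV FT Win)

variable {A : TAp} {T : A.Tie}

/-- facts on `n`: `U < 0`, `th n + T > D`, `W + |x| <= H`, `W <= D`; `vn` is the sign of `V` -/
def fW (xp vn : Bool) : List LF :=
  [[0, 0, -1, 1], [0, 0, -1, 1, 0, -(sgv xp)], [0, 0, -1, 0, 1], [-1, 0, 0, 0, -1, 0, 1, 0, 1],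
   [-2, 0, 1, 0, 0, 0, 0, 0, 0, 0, 1], [-2, 0, 0, 0, 0, 0, 0, 0, 0, 0, -1],
   [-1, 0, 0, 0, 1, 0, 0, 0, -1], [-1, 0, 0, 0, 0, 0, 0, 0, 1]] ++
  (match vn with
   | false => [[-2, 0, 0, 1, 0, 0, 0, 0, 0, -1, -1], [-2, 0, 0, 0, 0, 0, 0, 0, 0, 1, 1]]
   | true => [[0, 0, -1, 1, 0, 0, 0, -1, 0, 1], [-2, 0, 0, 1, 0, 0, 0, 0, 0, 1, 1],
      [-2, 0, 0, 0, 0, 0, 0, 0, 0, -1, -1]])

def fKA1 : List LF := [[-1, 0, 0, 0, 0, 0, 0, 0, 1, 0, 0, -1], [-1, 0, 1, 0, 0, 0, 0, 0, 0, 0, 0, 0, 0, 1],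
  [0, 0, 0, 0, 0, 0, 0, 0, 0, 0, 1, 0, 0, -1]]

def fKA2 : List LF := [[-1, 0, 0, 0, 0, 0, 0, 0, -1, 0, 0, 1], [-1, 0, 1, 0, 0, 0, 0, 0, 0, 0, 0, 0, 0, 1],
  [0, 0, 0, 0, 0, 0, 0, 0, 0, 0, 1, 0, 0, -1]]

def fKB1 : List LF := [[-1, 0, 0, 0, 0, 0, 0, 0, 1, 0, 0, -1], [-1, 0, 0, 0, 0, 0, 0, 0, 0, 0, -1, 0, 0, 1],
  [-1, 0, 0, 0, 0, 0, 0, 0, 0, 0, 0, 0, 0, -1]]

def fKB2 : List LF := [[-1, 0, 0, 0, 0, 0, 0, 0, -1, 0, 0, 1], [-1, 0, 0, 0, 0, 0, 0, 0, 0, 0, -1, 0, 0, 1],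
  [-1, 0, 0, 0, 0, 0, 0, 0, 0, 0, 0, 0, 0, -1]]

def fKC : List LF := [[-1, 0, 0, 0, 0, 0, 0, 0, 0, 0, 0, 0, 0, 1], [0, 0, 1, 0, 0, 0, 0, 0, 0, 0, 1, 0, 0, -1]]

theorem fKA1_ok {n U S K U' : ℤ} (h0 : -(A.q * A.w : ℤ) < U') (h1 : U' ≤ U) (ht : th A K < th A n) (S'' : ℤ) :
    AllNn (env A T [th A n, S, U, th A K, S'', U']) fKA1 := by
  unfold fKA1 env
  simp only [AllNn, dot_cons, dot_nil]
  refine ⟨?_, ?_, ?_, trivial⟩ <;> linarith [Int.add_one_le_iff.2 h0, Int.add_one_le_iff.2 ht]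

theorem fKA2_ok {n U S K U' : ℤ} (h0 : -(A.q * A.w : ℤ) < U') (h1 : U' ≤ U) (ht : th A n < th A K) (S'' : ℤ) :
    AllNn (env A T [th A n, S, U, th A K, S'', U']) fKA2 := by
  unfold fKA2 env
  simp only [AllNn, dot_cons, dot_nil]
  refine ⟨?_, ?_, ?_, trivial⟩ <;> linarith [Int.add_one_le_iff.2 h0, Int.add_one_le_iff.2 ht]

theorem fKB1_ok {n U S K U' : ℤ} (h0 : U < U') (h1 : U' < 0) (ht : th A K < th A n) (S'' : ℤ) :
    AllNn (env A T [th A n, S, U, th A K, S'', U']) fKB1 := by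
  unfold fKB1 env
  simp only [AllNn, dot_cons, dot_nil]
  refine ⟨?_, ?_, ?_, trivial⟩ <;> linarith [Int.add_one_le_iff.2 h0, Int.add_one_le_iff.2 ht]

theorem fKB2_ok {n U S K U' : ℤ} (h0 : U < U') (h1 : U' < 0) (ht : th A n < th A K) (S'' : ℤ) :
    AllNn (env A T [th A n, S, U, th A K, S'', U']) fKB2 := by
  unfold fKB2 env
  simp only [AllNn, dot_cons, dot_nil]
  refine ⟨?_, ?_, ?_, trivial⟩ <;> linarith [Int.add_one_le_iff.2 h0, Int.add_one_le_iff.2 ht]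

theorem fKC_ok {n U S K U' : ℤ} (h0 : 0 < U') (h1 : U' ≤ U + A.q * A.w) (S'' : ℤ) :
    AllNn (env A T [th A n, S, U, th A K, S'', U']) fKC := by
  unfold fKC env
  simp only [AllNn, dot_cons, dot_nil]
  refine ⟨?_, ?_, trivial⟩ <;> linarith [Int.add_one_le_iff.2 h0, Int.add_one_le_iff.2 h0]

theorem fW_ok {xp vn : Bool} (h : TL T) (d : ST A T (sgv xp)) {n U S : ℤ} (on : ON A T n U S (th A n))
    (hu : U < 0) (hf : A.D < th A n + th A T.t)
    (hv : vn = false → 0 < U + S) (hv' : vn = true → U + S < 0 ∧ A.q * A.w - A.q * A.h + A.q ≤ S) :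
    Fct A T n U S (fW xp vn) := by
  intro r
  have hq := A.q_pos'
  have hwx : A.q * (A.w : ℤ) + sgv xp * (A.q * T.x) ≤ A.q * A.h := by
    have h1 : (A.w : ℤ) + sgv xp * T.x ≤ A.h := by
      have h2 := h.hw
      have h3 : sgv xp * T.x ≤ |T.x| := by
        cases xp
        · change -1 * T.x ≤ |T.x|
          have := neg_le_abs T.x
          linarith
        · change 1 * T.x ≤ |T.x|
          have := le_abs_self T.x
          linarith
      linarith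
    have := mul_le_mul_of_nonneg_left h1 hq.le
    linarith
  have hWD := Pool.Agent.H78.HL.W_le_D h
  have f9 := d.facts.2.2.2.2.2.2.2.2.1
  have t0 := on.t0
  have t1 := on.t1
  have u0 := on.u0
  have u1 := on.u1
  have v0 := on.v0
  have v1 := on.v1
  have hu2 : U + 2 ≤ 0 := by rcases on.u with h | h <;> linarith
  unfold fW
  refine AllNn.append ?_ ?_
  · unfold env
    simp only [AllNn, dot_cons, dot_nil]
    refine ⟨?_, ?_, ?_, ?_, ?_, ?_, ?_, ?_, trivial⟩ <;> linarith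
  · cases vn
    · have := hv rfl
      have hv2 : 2 ≤ U + S := by rcases on.v with h | h <;> linarith
      unfold env
      simp only [AllNn, dot_cons, dot_nil]
      refine ⟨?_, ?_, trivial⟩ <;> linarith
    · have := hv' rfl
      have hv2 : U + S + 2 ≤ 0 := by rcases on.v with h | h <;> linarith
      unfold env
      simp only [AllNn, dot_cons, dot_nil]
      refine ⟨?_, ?_, ?_, trivial⟩ <;> linarith

theorem wrange {U' : ℤ} (h0 : -(A.q * A.w : ℤ) < U') (h1 : U' < A.q * A.w) :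
    -NN A ≤ 2 * U' ∧ 2 * U' ≤ NN A := by
  have h1 := NW A
  have h2 := A.q_pos'
  constructor <;> linarith

theorem winA1 {sp xp vn : Bool} (d : ST A T (sgv xp)) (hb : Big A) (hsg : A.sg = sgv sp)
    (hep : T.ep = sgv true) {n U S K U' S' : ℤ} (hc : IsC A n U S (th A n)) (u0 : -(A.q * A.w : ℤ) < U) (hu : U < 0)
    (hF : Fct A T n U S (fW xp vn)) (hK : IsC A K U' S' (th A K)) (h0 : -(A.q * A.w : ℤ) < U') (h1 : U' ≤ U) (ht : th A K < th A n) : False := by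
  have hr := wrange (A := A) (U' := U') (by linarith) (by linarith)
  cases sp <;> cases xp <;> cases vn
  · exact goK d hb hsg hep hc hF hK hr.1 hr.2 (fun S'' => fKA1_ok h0 h1 ht S'') (g := kcmpm11r1A1_g)
      (by decide +kernel) kcmpm11r1A1_k
  · exact goK d hb hsg hep hc hF hK hr.1 hr.2 (fun S'' => fKA1_ok h0 h1 ht S'') (g := kcmpm31r1A1_g)
      (by decide +kernel) kcmpm31r1A1_k
  · exact goK d hb hsg hep hc hF hK hr.1 hr.2 (fun S'' => fKA1_ok h0 h1 ht S'') (g := kcmpp11r1A1_g)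
      (by decide +kernel) kcmpp11r1A1_k
  · exact goK d hb hsg hep hc hF hK hr.1 hr.2 (fun S'' => fKA1_ok h0 h1 ht S'') (g := kcmpp31r1A1_g)
      (by decide +kernel) kcmpp31r1A1_k
  · exact goK d hb hsg hep hc hF hK hr.1 hr.2 (fun S'' => fKA1_ok h0 h1 ht S'') (g := kcppm11r1A1_g)
      (by decide +kernel) kcppm11r1A1_k
  · exact goK d hb hsg hep hc hF hK hr.1 hr.2 (fun S'' => fKA1_ok h0 h1 ht S'') (g := kcppm31r1A1_g)
      (by decide +kernel) kcppm31r1A1_k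
  · exact goK d hb hsg hep hc hF hK hr.1 hr.2 (fun S'' => fKA1_ok h0 h1 ht S'') (g := kcppp11r1A1_g)
      (by decide +kernel) kcppp11r1A1_k
  · exact goK d hb hsg hep hc hF hK hr.1 hr.2 (fun S'' => fKA1_ok h0 h1 ht S'') (g := kcppp31r1A1_g)
      (by decide +kernel) kcppp31r1A1_k

theorem winA2 {sp xp vn : Bool} (d : ST A T (sgv xp)) (hb : Big A) (hsg : A.sg = sgv sp)
    (hep : T.ep = sgv true) {n U S K U' S' : ℤ} (hc : IsC A n U S (th A n)) (u0 : -(A.q * A.w : ℤ) < U) (hu : U < 0)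
    (hF : Fct A T n U S (fW xp vn)) (hK : IsC A K U' S' (th A K)) (h0 : -(A.q * A.w : ℤ) < U') (h1 : U' ≤ U) (ht : th A n < th A K) : False := by
  have hr := wrange (A := A) (U' := U') (by linarith) (by linarith)
  cases sp <;> cases xp <;> cases vn
  · exact goK d hb hsg hep hc hF hK hr.1 hr.2 (fun S'' => fKA2_ok h0 h1 ht S'') (g := kcmpm11r1A2_g)
      (by decide +kernel) kcmpm11r1A2_k
  · exact goK d hb hsg hep hc hF hK hr.1 hr.2 (fun S'' => fKA2_ok h0 h1 ht S'') (g := kcmpm31r1A2_g)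
      (by decide +kernel) kcmpm31r1A2_k
  · exact goK d hb hsg hep hc hF hK hr.1 hr.2 (fun S'' => fKA2_ok h0 h1 ht S'') (g := kcmpp11r1A2_g)
      (by decide +kernel) kcmpp11r1A2_k
  · exact goK d hb hsg hep hc hF hK hr.1 hr.2 (fun S'' => fKA2_ok h0 h1 ht S'') (g := kcmpp31r1A2_g)
      (by decide +kernel) kcmpp31r1A2_k
  · exact goK d hb hsg hep hc hF hK hr.1 hr.2 (fun S'' => fKA2_ok h0 h1 ht S'') (g := kcppm11r1A2_g)
      (by decide +kernel) kcppm11r1A2_k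
  · exact goK d hb hsg hep hc hF hK hr.1 hr.2 (fun S'' => fKA2_ok h0 h1 ht S'') (g := kcppm31r1A2_g)
      (by decide +kernel) kcppm31r1A2_k
  · exact goK d hb hsg hep hc hF hK hr.1 hr.2 (fun S'' => fKA2_ok h0 h1 ht S'') (g := kcppp11r1A2_g)
      (by decide +kernel) kcppp11r1A2_k
  · exact goK d hb hsg hep hc hF hK hr.1 hr.2 (fun S'' => fKA2_ok h0 h1 ht S'') (g := kcppp31r1A2_g)
      (by decide +kernel) kcppp31r1A2_k

theorem winB1 {sp xp vn : Bool} (d : ST A T (sgv xp)) (hb : Big A) (hsg : A.sg = sgv sp)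
    (hep : T.ep = sgv true) {n U S K U' S' : ℤ} (hc : IsC A n U S (th A n)) (u0 : -(A.q * A.w : ℤ) < U) (hu : U < 0)
    (hF : Fct A T n U S (fW xp vn)) (hK : IsC A K U' S' (th A K)) (h0 : U < U') (h1 : U' < 0) (ht : th A K < th A n) : False := by
  have hr := wrange (A := A) (U' := U') (by linarith) (by linarith)
  cases sp <;> cases xp <;> cases vn
  · exact goK d hb hsg hep hc hF hK hr.1 hr.2 (fun S'' => fKB1_ok h0 h1 ht S'') (g := kcmpm11r1B1_g)
      (by decide +kernel) kcmpm11r1B1_k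
  · exact goK d hb hsg hep hc hF hK hr.1 hr.2 (fun S'' => fKB1_ok h0 h1 ht S'') (g := kcmpm31r1B1_g)
      (by decide +kernel) kcmpm31r1B1_k
  · exact goK d hb hsg hep hc hF hK hr.1 hr.2 (fun S'' => fKB1_ok h0 h1 ht S'') (g := kcmpp11r1B1_g)
      (by decide +kernel) kcmpp11r1B1_k
  · exact goK d hb hsg hep hc hF hK hr.1 hr.2 (fun S'' => fKB1_ok h0 h1 ht S'') (g := kcmpp31r1B1_g)
      (by decide +kernel) kcmpp31r1B1_k
  · exact goK d hb hsg hep hc hF hK hr.1 hr.2 (fun S'' => fKB1_ok h0 h1 ht S'') (g := kcppm11r1B1_g)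
      (by decide +kernel) kcppm11r1B1_k
  · exact goK d hb hsg hep hc hF hK hr.1 hr.2 (fun S'' => fKB1_ok h0 h1 ht S'') (g := kcppm31r1B1_g)
      (by decide +kernel) kcppm31r1B1_k
  · exact goK d hb hsg hep hc hF hK hr.1 hr.2 (fun S'' => fKB1_ok h0 h1 ht S'') (g := kcppp11r1B1_g)
      (by decide +kernel) kcppp11r1B1_k
  · exact goK d hb hsg hep hc hF hK hr.1 hr.2 (fun S'' => fKB1_ok h0 h1 ht S'') (g := kcppp31r1B1_g)
      (by decide +kernel) kcppp31r1B1_k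

theorem winB2 {sp xp vn : Bool} (d : ST A T (sgv xp)) (hb : Big A) (hsg : A.sg = sgv sp)
    (hep : T.ep = sgv true) {n U S K U' S' : ℤ} (hc : IsC A n U S (th A n)) (u0 : -(A.q * A.w : ℤ) < U) (hu : U < 0)
    (hF : Fct A T n U S (fW xp vn)) (hK : IsC A K U' S' (th A K)) (h0 : U < U') (h1 : U' < 0) (ht : th A n < th A K) : False := by
  have hr := wrange (A := A) (U' := U') (by linarith) (by linarith)
  cases sp <;> cases xp <;> cases vn
  · exact goK d hb hsg hep hc hF hK hr.1 hr.2 (fun S'' => fKB2_ok h0 h1 ht S'') (g := kcmpm11r1B2_g)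
      (by decide +kernel) kcmpm11r1B2_k
  · exact goK d hb hsg hep hc hF hK hr.1 hr.2 (fun S'' => fKB2_ok h0 h1 ht S'') (g := kcmpm31r1B2_g)
      (by decide +kernel) kcmpm31r1B2_k
  · exact goK d hb hsg hep hc hF hK hr.1 hr.2 (fun S'' => fKB2_ok h0 h1 ht S'') (g := kcmpp11r1B2_g)
      (by decide +kernel) kcmpp11r1B2_k
  · exact goK d hb hsg hep hc hF hK hr.1 hr.2 (fun S'' => fKB2_ok h0 h1 ht S'') (g := kcmpp31r1B2_g)
      (by decide +kernel) kcmpp31r1B2_k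
  · exact goK d hb hsg hep hc hF hK hr.1 hr.2 (fun S'' => fKB2_ok h0 h1 ht S'') (g := kcppm11r1B2_g)
      (by decide +kernel) kcppm11r1B2_k
  · exact goK d hb hsg hep hc hF hK hr.1 hr.2 (fun S'' => fKB2_ok h0 h1 ht S'') (g := kcppm31r1B2_g)
      (by decide +kernel) kcppm31r1B2_k
  · exact goK d hb hsg hep hc hF hK hr.1 hr.2 (fun S'' => fKB2_ok h0 h1 ht S'') (g := kcppp11r1B2_g)
      (by decide +kernel) kcppp11r1B2_k
  · exact goK d hb hsg hep hc hF hK hr.1 hr.2 (fun S'' => fKB2_ok h0 h1 ht S'') (g := kcppp31r1B2_g)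
      (by decide +kernel) kcppp31r1B2_k

theorem winC {sp xp vn : Bool} (d : ST A T (sgv xp)) (hb : Big A) (hsg : A.sg = sgv sp)
    (hep : T.ep = sgv true) {n U S K U' S' : ℤ} (hc : IsC A n U S (th A n)) (u0 : -(A.q * A.w : ℤ) < U) (hu : U < 0)
    (hF : Fct A T n U S (fW xp vn)) (hK : IsC A K U' S' (th A K)) (h0 : 0 < U') (h1 : U' ≤ U + A.q * A.w) : False := by
  have hr := wrange (A := A) (U' := U') (by linarith) (by linarith)
  cases sp <;> cases xp <;> cases vn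
  · exact goK d hb hsg hep hc hF hK hr.1 hr.2 (fun S'' => fKC_ok h0 h1 S'') (g := kcmpm11r1C_g)
      (by decide +kernel) kcmpm11r1C_k
  · exact goK d hb hsg hep hc hF hK hr.1 hr.2 (fun S'' => fKC_ok h0 h1 S'') (g := kcmpm31r1C_g)
      (by decide +kernel) kcmpm31r1C_k
  · exact goK d hb hsg hep hc hF hK hr.1 hr.2 (fun S'' => fKC_ok h0 h1 S'') (g := kcmpp11r1C_g)
      (by decide +kernel) kcmpp11r1C_k
  · exact goK d hb hsg hep hc hF hK hr.1 hr.2 (fun S'' => fKC_ok h0 h1 S'') (g := kcmpp31r1C_g)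
      (by decide +kernel) kcmpp31r1C_k
  · exact goK d hb hsg hep hc hF hK hr.1 hr.2 (fun S'' => fKC_ok h0 h1 S'') (g := kcppm11r1C_g)
      (by decide +kernel) kcppm11r1C_k
  · exact goK d hb hsg hep hc hF hK hr.1 hr.2 (fun S'' => fKC_ok h0 h1 S'') (g := kcppm31r1C_g)
      (by decide +kernel) kcppm31r1C_k
  · exact goK d hb hsg hep hc hF hK hr.1 hr.2 (fun S'' => fKC_ok h0 h1 S'') (g := kcppp11r1C_g)
      (by decide +kernel) kcppp11r1C_k
  · exact goK d hb hsg hep hc hF hK hr.1 hr.2 (fun S'' => fKC_ok h0 h1 S'') (g := kcppp31r1C_g)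
      (by decide +kernel) kcppp31r1C_k

/-- no class in the column window, `ep = 1` -/
theorem win (h : TL T) {n U S : ℤ} (o : OV T n U S) (f : FT T n U)
    (e : 0 < U + S ∨ A.q * A.w - A.q * A.h + A.q ≤ S) (he : T.ep = 1) : Win T n U := by
  intro K U' S' hK hn ht h0 h1
  obtain ⟨xp, d⟩ := TL.st h
  have hb := TL.big h
  have on := OV.on d o
  have hu := f.u
  have hf := f.f
  rw [he, one_mul] at hu h0 h1
  rw [one_mul] at h1
  obtain ⟨sp, hsg⟩ : ∃ sp, A.sg = sgv sp := by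
    rcases A.hsg with h | h
    · exact ⟨true, h⟩
    · exact ⟨false, h⟩
  obtain ⟨vn, hF⟩ : ∃ vn, Fct A T n U S (fW xp vn) := by
    rcases on.v with hv | hv
    · refine ⟨true, fW_ok h d on hu hf (fun h => by cases h) (fun _ => ⟨by linarith, ?_⟩)⟩
      rcases e with e | e
      · linarith
      · exact e
    · exact ⟨false, fW_ok h d on hu hf (fun _ => by linarith) (fun h => by cases h)⟩
  have hK0 : U' ≠ 0 := by
    intro h2
    rw [h2] at hK
    refine A.gen K hK.2.1.ne' ?_ ((dvd_mul_left (A.q : ℤ) A.p).trans (by simpa [NN] using hK.1.1))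
    rw [abs_of_pos hK.2.1]; exact hK.2.2.le
  have hth : th A K < th A n ∨ th A n < th A K := by
    rcases lt_or_gt_of_ne hn with h2 | h2
    · exact Or.inl (th_lt A h2)
    · exact Or.inr (th_lt A h2)
  rcases le_or_gt U' U with h2 | h2
  · rcases hth with h3 | h3
    · exact winA1 d hb hsg he o.cn o.U0 hu hF hK h0 h2 h3
    · exact winA2 d hb hsg he o.cn o.U0 hu hF hK h0 h2 h3
  · rcases lt_or_gt_of_ne hK0 with h4 | h4
    · rcases hth with h3 | h3
      · exact winB1 d hb hsg he o.cn o.U0 hu hF hK h2 h4 h3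
      · exact winB2 d hb hsg he o.cn o.U0 hu hF hK h2 h4 h3
    · exact winC d hb hsg he o.cn o.U0 hu hF hK h4 h1

end Pool.Agent.H98.HL
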