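import Pool.Agent.H98.HL.Dat
import Pool.Agent.H78.SV.Base

/-!
# Large `d` (single ties): the interface to the checker
-/

namespace Pool.Agent.H98.HL

open Pool.Agent.H78.RT
open Pool.Agent.H78.Tie
open Pool.Agent.H78.Tie.TAp
open Pool.Agent.H81.AP (LF add smul dot dot_nil dot_nil' dot_cons dot_add dot_smul AllNn AllNe)
open Pool.Agent.H23.DT (AllNn.append AllB.append AllC.toB)
open Pool.Agent.H78.SV (ST env rT rP sgv bT OC)

variable {A : TAp} {T : A.Tie} {sx : ℤ}

/-! ### linear combinations of records -/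

theorem cmb_ok {v : List ℤ} : ∀ (l : List LR) (c : List Int), AllB A v l →
    ∃ i, (cmb l c).Ok A v i
  | [], c, _ => ⟨0, by
      unfold LR.Ok cmb
      simpa only [dot_nil] using Rec.zero A⟩
  | _ :: _, [], _ => ⟨0, by
      unfold LR.Ok cmb
      simpa only [dot_nil] using Rec.zero A⟩
  | a :: l, c :: cs, h => by
    obtain ⟨⟨i, hi⟩, hl⟩ := h
    obtain ⟨j, hj⟩ := cmb_ok l cs hl
    refine ⟨c * i + j, ?_⟩
    have := hi.lin hj c
    unfold LR.Ok cmb
    simp only [dot_add, dot_smul]
    exact this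

/-- all `θ` of classes are at least `3` -/
def Big (A : TAp) : Prop := ∀ i, 0 < i → 3 ≤ th A i

theorem big_of (h : 2 * (A.p : ℤ) < A.D) : Big A := by
  intro i hi
  have h1 := Int.mul_ediv_cancel' (p_dvd_D A)
  have hp := A.p_pos'
  have h2 : 3 ≤ A.D / (A.p : ℤ) := by
    by_contra hc
    have : A.p * (A.D / (A.p : ℤ)) ≤ A.p * 2 := mul_le_mul_of_nonneg_left (by omega) hp.le
    omega
  unfold th
  nlinarith

theorem th_index_pos {i θ : ℤ} (h : A.D * i = A.p * θ) (h0 : 0 < θ) : 0 < i := by
  have hD := D_pos A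
  have : 0 < A.D * i := by rw [h]; exact mul_pos A.p_pos' h0
  exact (mul_pos_iff_of_pos_left hD).1 this

theorem gap_any (hb : Big A) {v : List ℤ} {B : List LR} (hB : AllB A v B) (c : List Int) :
    AnyNn v (gapO B c) := by
  obtain ⟨i, hi⟩ := cmb_ok B c hB
  unfold gapO
  rcases le_or_gt (dot (cmb B c).T (1 :: v)) 0 with h | h
  · right; left
    rw [dot_smul]; linarith
  · left
    have h1 := hb i (th_index_pos hi.2.2 h)
    rw [← hi.th] at h1
    rw [dot_add]
    simp only [dot_cons, dot_nil, mul_one]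
    linarith

/-- extremality of the class with `θ = θn` among the overlapping classes -/
def Ext (A : TAp) (T : A.Tie) (ext : Nat) (θn : ℤ) : Prop :=
  ∀ i U S θ, IsC A i U S θ → i ≠ T.t → ∀ z z' : ℤ, -(A.q * A.w : ℤ) < U - z * NN A →
    U - z * NN A < A.q * A.w → -(A.q * A.h : ℤ) < U + S - z' * NN A →
    U + S - z' * NN A < A.q * A.h → (ext = 1 → θn ≤ θ) ∧ (ext ≠ 1 → θ ≤ θn)

theorem dvd_zero_of {N x : ℤ} (h : N ∣ x) (h1 : -N < x) (h2 : x < N) : x = 0 := by
  obtain ⟨z, rfl⟩ := h
  have hN : 0 < N := by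
    by_contra hc
    nlinarith
  have a : z < 1 := by
    by_contra hc
    nlinarith
  have b : -1 < z := by
    by_contra hc
    nlinarith
  have : z = 0 := by omega
  rw [this, mul_zero]

/-- `U` of the tie is `± (W ± 1)` -/
theorem not_t {i U S θ : ℤ} (hc : IsC A i U S θ) {z : ℤ}
    (h1 : -(A.q * A.w : ℤ) + (if A.sg = 1 then 0 else 1) < U - z * NN A)
    (h2 : U - z * NN A < A.q * A.w - (if A.sg = 1 then 0 else 1)) : i ≠ T.t := by
  intro hi
  have e1 := hc.1.1
  have e2 := (Rec.tie T).1
  rw [hi] at e1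
  have e3 : NN A ∣ T.ep * (A.q * A.w + A.sg) - (U - z * NN A) := by
    obtain ⟨x, hx⟩ := e1
    obtain ⟨y, hy⟩ := e2
    exact ⟨x - y + z, by linear_combination hx - hy⟩
  have hW := W2 A
  have hN := NW A
  have hq := q6 A
  have hsg := A.hsg
  rcases T.hep with he | he <;> rw [he] at e3
  · have := dvd_zero_of e3 (by rcases hsg with h | h <;> rw [h] at h1 h2 ⊢ <;> norm_num at h1 h2 ⊢ <;> linarith)
      (by rcases hsg with h | h <;> rw [h] at h1 h2 ⊢ <;> norm_num at h1 h2 ⊢ <;> linarith)
    rcases hsg with h | h <;> rw [h] at h1 h2 this <;> norm_num at h1 h2 this <;> linarith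
  · have := dvd_zero_of e3 (by rcases hsg with h | h <;> rw [h] at h1 h2 ⊢ <;> norm_num at h1 h2 ⊢ <;> linarith)
      (by rcases hsg with h | h <;> rw [h] at h1 h2 ⊢ <;> norm_num at h1 h2 ⊢ <;> linarith)
    rcases hsg with h | h <;> rw [h] at h1 h2 this <;> norm_num at h1 h2 this <;> linarith

theorem kOf_eq {sp : Bool} (hsg : A.sg = sgv sp) : kOf sp = if A.sg = 1 then 0 else 1 := by
  rw [hsg]
  cases sp <;> rfl

theorem ex_any {sp : Bool} (hsg : A.sg = sgv sp) {r : List ℤ} {B : List LR}
    (hB : AllB A (env A T r) B) {n : LF} {ext : Nat}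
    (hx : Ext A T ext (dot n (1 :: env A T r))) (e : EL) :
    AnyNn (env A T r) (exO sp B n ext e) := by
  obtain ⟨i, hi⟩ := cmb_ok B e.c hB
  unfold exO exO'
  rw [kOf_eq hsg]
  set R := cmb B e.c
  set k : ℤ := if A.sg = 1 then 0 else 1
  have q0 := A.q_pos'
  by_contra hc
  have e1 : dot (smul (-1) R.T) (1 :: env A T r) = - dot R.T (1 :: env A T r) := by
    rw [dot_smul]; ring
  have e2 : dot (add R.T [0, 0, 0, 0, -1]) (1 :: env A T r) = dot R.T (1 :: env A T r) - A.D := by
    rw [dot_add]; unfold env; simp only [dot_cons, dot_nil]; ring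
  have e3 : dot (add (smul (-1) R.U) [k, e.z, -1]) (1 :: env A T r)
      = - (dot R.U (1 :: env A T r) - e.z * NN A) - A.q * A.w + k := by
    rw [dot_add, dot_smul]; unfold env; simp only [dot_cons, dot_nil]; ring
  have e4 : dot (add R.U [k, -e.z, -1]) (1 :: env A T r)
      = dot R.U (1 :: env A T r) - e.z * NN A - A.q * A.w + k := by
    rw [dot_add]; unfold env; simp only [dot_cons, dot_nil]; ring
  have e5 : dot (add (smul (-1) (add R.U R.S)) [0, e.z', 0, -1]) (1 :: env A T r)
      = - (dot R.U (1 :: env A T r) + dot R.S (1 :: env A T r) - e.z' * NN A) - A.q * A.h := by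
    rw [dot_add, dot_smul, dot_add]; unfold env; simp only [dot_cons, dot_nil]; ring
  have e6 : dot (add (add R.U R.S) [0, -e.z', 0, -1]) (1 :: env A T r)
      = dot R.U (1 :: env A T r) + dot R.S (1 :: env A T r) - e.z' * NN A - A.q * A.h := by
    rw [dot_add, dot_add]; unfold env; simp only [dot_cons, dot_nil]; ring
  have e7 : dot (add R.T (smul (-1) n)) (1 :: env A T r)
      = dot R.T (1 :: env A T r) - dot n (1 :: env A T r) := by
    rw [dot_add, dot_smul]; ring
  have e8 : dot (add n (smul (-1) R.T)) (1 :: env A T r)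
      = dot n (1 :: env A T r) - dot R.T (1 :: env A T r) := by
    rw [dot_add, dot_smul]; ring
  have hk : k = 0 ∨ k = 1 := by
    rcases A.hsg with h | h
    · left; simp [k, h]
    · right; simp [k, h]
  have key : ∀ l : LF, ((ext = 1 → dot l (1 :: env A T r)
      = dot R.T (1 :: env A T r) - dot n (1 :: env A T r)) ∧ (ext ≠ 1 → dot l (1 :: env A T r)
      = dot n (1 :: env A T r) - dot R.T (1 :: env A T r))) →
      ¬ AnyNn (env A T r) [smul (-1) R.T, add R.T [0, 0, 0, 0, -1],
        add (smul (-1) R.U) [k, e.z, -1], add R.U [k, -e.z, -1],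
        add (smul (-1) (add R.U R.S)) [0, e.z', 0, -1], add (add R.U R.S) [0, -e.z', 0, -1], l] →
      False := by
    intro l hl hc
    simp only [AnyNn, e1, e2, e3, e4, e5, e6, or_false, not_or, not_le] at hc
    obtain ⟨a1, a2, a3, a4, a5, a6, a7⟩ := hc
    have hC : IsC A i _ _ _ := hi.isC (by linarith) (by linarith)
    have nt : i ≠ T.t := not_t hC (z := e.z) (by change _ + k < _; linarith)
      (by change _ < _ - k; linarith)
    have := hx i _ _ _ hC nt e.z e.z' (by rcases hk with h | h <;> rw [h] at a3 <;> linarith)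
      (by rcases hk with h | h <;> rw [h] at a4 <;> linarith) (by linarith) (by linarith)
    by_cases h : ext = 1
    · have := this.1 h
      rw [hl.1 h] at a7
      linarith
    · have := this.2 h
      rw [hl.2 h] at a7
      linarith
  refine key _ ?_ hc
  constructor
  · intro h
    subst h
    exact e7
  · intro h
    split
    · exact absurd rfl h
    · exact e8

theorem AllO.append {v : List ℤ} : ∀ {l l' : List (List LF)}, AllO v l → AllO v l' →
    AllO v (l ++ l')
  | [], _, _, h => h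
  | _ :: _, _, h, h' => ⟨h.1, AllO.append h.2 h'⟩

theorem AllO.map {α : Type} {v : List ℤ} {f : α → List LF} : ∀ {l : List α},
    (∀ a ∈ l, AnyNn v (f a)) → AllO v (l.map f)
  | [], _ => trivial
  | a :: l, h => ⟨h a List.mem_cons_self, AllO.map fun b hb => h b (List.mem_cons_of_mem _ hb)⟩

theorem stG (d : ST A T sx) (hb : Big A) {sp ep : Bool} (hsg : A.sg = sgv sp)
    (hep : T.ep = sgv ep) (r : List ℤ) : AllNn (env A T r) (G0 (sgv sp) (sgv ep) sx) := by
  obtain ⟨f1, f2, f3, f4, f5, f6, f7, f8, f9, f10⟩ := d.facts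
  rw [hsg, hep] at f7
  have h1 := hb (A.p - T.t) (by have := T.tp; omega)
  rw [th_sub, th_p] at h1
  unfold env G0
  simp only [AllNn, dot_cons, dot_nil, mul_one]
  refine ⟨?_, ?_, ?_, ?_, ?_, ?_, ?_, ?_, ?_, ?_, trivial⟩ <;> linarith

/-- a checked tree for single ties, large `d` -/
theorem runL (d : ST A T sx) (hb : Big A) {sp ep : Bool} (hsg : A.sg = sgv sp)
    (hep : T.ep = sgv ep) {n : LR} {J : List LR} {g : List LF} {ga : List (List Int)} {ext : Nat}
    {ex : List EL} {r : List ℤ} (hJ : AllC A (env A T r) (n :: J)) (hg : AllNn (env A T r) g)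
    (hx : ex = [] ∨ Ext A T ext (dot n.T (1 :: env A T r)))
    {t : Pool.Agent.H78.RT.T} (h : (mkL sp ep sx n J g ga ext ex).chk t = true) : False := by
  have rt := Rec.tie T
  rw [hep, hsg] at rt
  have hB : AllB A (env A T r) (rT (sgv sp) (sgv ep) :: n :: (J ++ [rP])) := by
    refine ⟨⟨T.t, ?_⟩, ?_⟩
    · unfold LR.Ok rT env
      simp only [dot_cons, dot_nil]
      convert rt using 1 <;> ring
    · refine AllB.append (l := n :: J) (AllC.toB hJ) ⟨⟨A.p, ?_⟩, trivial⟩
      unfold LR.Ok rP env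
      simp only [dot_cons, dot_nil]
      convert Rec.P A using 1 <;> ring
  refine Pool.Agent.H78.RT.run d.F (ruleF d.F T d.hs) (mkL sp ep sx n J g ga ext ex)
    (v := env A T r) ⟨_, rfl⟩ (by rw [hsg]; cases sp <;> rfl)
    (lL := match ep with | true => none | false => some (A.p - T.t))
    (hL := match ep with | true => some T.t | false => none)
    (lR := match ep with | true => some (A.p - T.t) | false => none)
    (hR := match ep with | true => none | false => some T.t)
    ?_ ?_ ?_ ?_ ?_ ?_ hB ?_ trivial ?_ (fun h => by cases h) ?_ h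
  · cases ep
    · change A.D * (A.p - T.t) = A.p * dot [0, 0, 0, 0, 1, 0, -1] (1 :: env A T r)
      unfold env
      simp only [dot_cons, dot_nil]
      rw [th_eq, th_sub, th_p]; ring
    · trivial
  · cases ep
    · trivial
    · change A.D * T.t = A.p * dot [0, 0, 0, 0, 0, 0, 1] (1 :: env A T r)
      unfold env
      simp only [dot_cons, dot_nil]
      rw [th_eq]; ring
  · cases ep
    · trivial
    · change A.D * (A.p - T.t) = A.p * dot [0, 0, 0, 0, 1, 0, -1] (1 :: env A T r)
      unfold env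
      simp only [dot_cons, dot_nil]
      rw [th_eq, th_sub, th_p]; ring
  · cases ep
    · change A.D * T.t = A.p * dot [0, 0, 0, 0, 0, 0, 1] (1 :: env A T r)
      unfold env
      simp only [dot_cons, dot_nil]
      rw [th_eq]; ring
    · trivial
  · intro j h1 h2
    cases ep
    · exact Or.inr ⟨hep, by have := h1 _ rfl; omega⟩
    · exact Or.inl ⟨hep, h2 _ rfl⟩
  · intro j h1 h2
    cases ep
    · exact Or.inr ⟨hep, h2 _ rfl⟩
    · exact Or.inl ⟨hep, by have := h1 _ rfl; omega⟩
  · refine ⟨⟨T.t, ⟨?_, T.t0, T.tp⟩⟩, hJ⟩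
    unfold rT env
    simp only [dot_cons, dot_nil]
    convert rt using 1 <;> ring
  · refine AllO.append (AllO.map fun c _ => gap_any hb hB c) (AllO.map fun e he => ?_)
    rcases hx with hx | hx
    · rw [hx] at he; cases he
    · exact ex_any hsg hB hx e
  · exact AllNn.append hg (stG d hb hsg hep r)

end Pool.Agent.H98.HL
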