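import Pool.Agent.H78.SV.Dat

/-!
# Static data of the trees for large `d` (single ties)

Environment `v = [N, W, H, D, X, T, q, ...]` with `X = q x`, `T = θ_t`.
-/

namespace Pool.Agent.H98.HL

open Pool.Agent.H78.RT
open Pool.Agent.H81.AP (LF add smul)
open Pool.Agent.H78.SV (rT rP sgv bT)

/-- the inequalities which always hold; `sx` is the sign of `x` -/
def G0 (sg ep sx : Int) : List LF :=
  [[0, 0, 0, 1, 0, -sx, 0, -1],
   [0, 0, 0, 0, 0, sx, 0, -1],
   [-2, 0, 0, 0, 1, 0, -1],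
   [-(ep * sg), 0, 0, 0, 0, 0, 1, -1],
   [-2, 1, 0, 0, -2, 0, 0, 1],
   [0, 1, 0, -2, 0, 0, 0, -1],
   [0, 1, -2, 0, 0, 0, 0, -1],
   [0, 0, 0, 1, 0, 0, 0, -2],
   [0, 0, 1, 0, 0, 0, 0, -2],
   [-6, 0, 0, 0, 0, 0, 0, 1]]

/-- linear combination of records -/
def cmb : List LR → List Int → LR
  | a :: l, c :: cs => ⟨add (smul c a.U) (cmb l cs).U, add (smul c a.S) (cmb l cs).S,
      add (smul c a.T) (cmb l cs).T⟩
  | [], _ => ⟨[], [], []⟩
  | _ :: _, [] => ⟨[], [], []⟩

/-- `θ ≤ 0` or `θ ≥ 3` -/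
def gapO (B : List LR) (c : List Int) : List LF :=
  [add (cmb B c).T [-3], smul (-1) (cmb B c).T]

/-- an overlapping class which contradicts the extremality of the class `n` -/
structure EL where
  c : List Int
  z : Int
  z' : Int

def exO' (k : Int) (r : LR) (n : LF) (ext : Nat) (e : EL) : List LF :=
  [smul (-1) r.T,
   add r.T [0, 0, 0, 0, -1],
   add (smul (-1) r.U) [k, e.z, -1],
   add r.U [k, -e.z, -1],
   add (smul (-1) (add r.U r.S)) [0, e.z', 0, -1],
   add (add r.U r.S) [0, -e.z', 0, -1],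
   match ext with
   | 1 => add r.T (smul (-1) n)
   | _ => add n (smul (-1) r.T)]

def kOf (sp : Bool) : Int := match sp with | true => 0 | false => 1

def exO (sp : Bool) (B : List LR) (n : LF) (ext : Nat) (e : EL) : List LF :=
  exO' (kOf sp) (cmb B e.c) n ext e

/-- static data of a tree: extra classes `n :: J`, extra inequalities `g`, gap codes `ga`,
extremality codes `ex` -/
def mkL (sp ep : Bool) (sx : Int) (n : LR) (J : List LR) (g : List LF) (ga : List (List Int))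
    (ext : Nat) (ex : List EL) : Dat where
  sp := sp
  ov := false
  L := bT ep
  R := bT (!ep)
  B := rT (sgv sp) (sgv ep) :: n :: (J ++ [rP])
  C := rT (sgv sp) (sgv ep) :: n :: J
  N := []
  O := ga.map (gapO (rT (sgv sp) (sgv ep) :: n :: (J ++ [rP]))) ++
    ex.map (exO sp (rT (sgv sp) (sgv ep) :: n :: (J ++ [rP])) n.T ext)
  E := []
  G := g ++ G0 (sgv sp) (sgv ep) sx

/-- record of the overlapping class `n` -/
def rN : LR := ⟨[0, 0, 0, 0, 0, 0, 0, 0, 0, 0, 1], [0, 0, 0, 0, 0, 0, 0, 0, 0, 1],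
  [0, 0, 0, 0, 0, 0, 0, 0, 1]⟩

end Pool.Agent.H98.HL
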