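import Pool.Agent.H98.HL.Ov
import Pool.Agent.H78.HL.CaseR

/-!
# Tall rectangles: running the trees
-/

namespace Pool.Agent.H98.HL

open Pool.Agent.H78.RT
open Pool.Agent.H78.Tie
open Pool.Agent.H78.Tie.TAp
open Pool.Agent.H81.AP (LF add smul dot dot_nil dot_nil' dot_cons dot_add dot_smul AllNn AllNe)
open Pool.Agent.H23.DT (AllNn.append)
open Pool.Agent.H78.SV (ST env rT rP sgv bT)
open Pool.Agent.H78.HL (TL OV FT Win)

variable {A : TAp} {T : A.Tie}

theorem AllNn.sub {v : List ℤ} {F : List LF} : ∀ {g : List LF}, AllNn v F →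
    (g.all fun l => decide (l ∈ F)) = true → AllNn v g
  | [], _, _ => trivial
  | l :: g, h, hs => by
    simp only [List.all_cons, Bool.and_eq_true, decide_eq_true_eq] at hs
    exact ⟨Pool.Agent.H81.AP.AllNn.mem h hs.1, AllNn.sub h hs.2⟩

/-- facts on the environment which starts with the record of `n` -/
def Fct (A : TAp) (T : A.Tie) (n U S : ℤ) (F : List LF) : Prop :=
  ∀ r, AllNn (env A T (th A n :: S :: U :: r)) F

theorem Fct.append {n U S : ℤ} {F G : List LF} (hF : Fct A T n U S F) (hG : Fct A T n U S G) :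
    Fct A T n U S (F ++ G) := fun r => AllNn.append (hF r) (hG r)

theorem Fct.nil {n U S : ℤ} : Fct A T n U S [] := fun _ => trivial

/-- record of a row class -/
def rJ (SF : LF) : LR := ⟨[0, 0, 0, 0, 0, 0, 0, 0, 0, 0, 0, 0, 1], SF,
  [0, 0, 0, 0, 0, 0, 0, 0, 0, 0, 0, 1]⟩

/-- record of a generic class -/
def rK : LR := ⟨[0, 0, 0, 0, 0, 0, 0, 0, 0, 0, 0, 0, 0, 1],
  [0, 0, 0, 0, 0, 0, 0, 0, 0, 0, 0, 0, 1], [0, 0, 0, 0, 0, 0, 0, 0, 0, 0, 0, 1]⟩

def gJ : List LF := [[0, 1, 0, 0, 0, 0, 0, 0, 0, 0, 0, 0, -2], [0, 1, 0, 0, 0, 0, 0, 0, 0, 0, 0, 0, 2],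
  [-1, 0, 0, 0, 1, 0, 0, 0, 0, 0, 0, -1], [-1, 0, 0, 0, 0, 0, 0, 0, 0, 0, 0, 1]]

def gK : List LF := [[0, 1, 0, 0, 0, 0, 0, 0, 0, 0, 0, 0, 0, -2],
  [0, 1, 0, 0, 0, 0, 0, 0, 0, 0, 0, 0, 0, 2], [0, 1, 0, 0, 0, 0, 0, 0, 0, 0, 0, 0, -2],
  [0, 1, 0, 0, 0, 0, 0, 0, 0, 0, 0, 0, 2],
  [-1, 0, 0, 0, 1, 0, 0, 0, 0, 0, 0, -1], [-1, 0, 0, 0, 0, 0, 0, 0, 0, 0, 0, 1]]

/-- a tree with a row class -/
theorem goR {sp ep xp : Bool} (d : ST A T (sgv xp)) (hb : Big A) (hsg : A.sg = sgv sp)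
    (hep : T.ep = sgv ep) {n U S : ℤ} (hc : IsC A n U S (th A n)) {F : List LF}
    (hF : Fct A T n U S F) {SF : LF} {k : ℤ} (hk : ¬ (A.p : ℤ) ∣ k)
    (hS : ∀ r, dot SF (1 :: env A T r) = A.q * k) {g : List LF}
    (hs : (g.all fun l => decide (l ∈ gJ ++ F)) = true) {t : Pool.Agent.H78.RT.T}
    (h : (mkL sp ep (sgv xp) rN [rJ SF] g [] 0 []).chk t = true) : False := by
  obtain ⟨j, V, hj, V0, V1⟩ := exRow A hk
  have j0 := th_pos A hj.2.1
  have j1 := th_ltD A hj.2.2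
  have hJ : AllC A (env A T [th A n, S, U, th A j, V]) [rN, rJ SF] := by
    refine ⟨⟨n, ?_⟩, ⟨j, ?_⟩, trivial⟩
    · unfold LR.Cl rN env
      simp only [dot_cons, dot_nil]
      convert hc using 1 <;> ring
    · unfold LR.Cl rJ
      rw [hS]
      unfold env
      simp only [dot_cons, dot_nil]
      convert hj using 1 <;> ring
  refine runL (r := [th A n, S, U, th A j, V]) d hb hsg hep hJ ?_ (Or.inl rfl) h
  · refine AllNn.sub (F := gJ ++ F) (AllNn.append ?_ (hF [th A j, V])) hs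
    unfold gJ env
    simp only [AllNn, dot_cons, dot_nil]
    refine ⟨?_, ?_, ?_, ?_, trivial⟩ <;> linarith

/-- a tree with a generic class; `FK` are facts on the pair -/
theorem goK {sp ep xp : Bool} (d : ST A T (sgv xp)) (hb : Big A) (hsg : A.sg = sgv sp)
    (hep : T.ep = sgv ep) {n U S : ℤ} (hc : IsC A n U S (th A n)) {F : List LF}
    (hF : Fct A T n U S F) {K U' S' : ℤ} (hK : IsC A K U' S' (th A K)) (hu : -NN A ≤ 2 * U')
    (hu' : 2 * U' ≤ NN A) {FK : List LF}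
    (hFK : ∀ S'', AllNn (env A T [th A n, S, U, th A K, S'', U']) FK) {g : List LF}
    (hs : (g.all fun l => decide (l ∈ gK ++ (FK ++ F))) = true) {t : Pool.Agent.H78.RT.T}
    (h : (mkL sp ep (sgv xp) rN [rK] g [] 0 []).chk t = true) : False := by
  have j0 := th_pos A hK.2.1
  have j1 := th_ltD A hK.2.2
  obtain ⟨S'', hS, S0, S1⟩ := Pool.Agent.H23.DT.exists_rep (NN_pos A) S'
  have hK' : IsC A K U' S'' (th A K) := by
    obtain ⟨⟨h1, ⟨s, hs1, hs2⟩, h3⟩, h4⟩ := hK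
    refine ⟨⟨h1, ?_, h3⟩, h4⟩
    obtain ⟨z, hz⟩ := hS
    refine ⟨s - z * A.p, ?_, ?_⟩
    · rw [hs1] at hz
      unfold NN at hz
      linear_combination -hz
    · obtain ⟨y, hy⟩ := hs2
      exact ⟨y + z, by linear_combination hy⟩
  have hJ : AllC A (env A T [th A n, S, U, th A K, S'', U']) [rN, rK] := by
    refine ⟨⟨n, ?_⟩, ⟨K, ?_⟩, trivial⟩
    · unfold LR.Cl rN env
      simp only [dot_cons, dot_nil]
      convert hc using 1 <;> ring
    · unfold LR.Cl rK env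
      simp only [dot_cons, dot_nil]
      convert hK' using 1 <;> ring
  refine runL (r := [th A n, S, U, th A K, S'', U']) d hb hsg hep hJ ?_ (Or.inl rfl) h
  · refine AllNn.sub (F := gK ++ (FK ++ F)) (AllNn.append ?_
      (AllNn.append (hFK S'') (hF [th A K, S'', U']))) hs
    unfold gK env
    simp only [AllNn, dot_cons, dot_nil]
    refine ⟨?_, ?_, ?_, ?_, ?_, ?_, trivial⟩ <;> linarith

/-- the sign of `x` -/
theorem TL.st (h : TL T) : ∃ xp, ST A T (sgv xp) := by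
  rcases lt_or_gt_of_ne h.x0 with h0 | h0
  · refine ⟨false, h.F, h.hs, h.ht, ?_, ?_⟩
    · change 0 < -1 * T.x; omega
    · change -1 * T.x < A.h
      have := h.x1; rw [abs_of_neg h0] at this; omega
  · refine ⟨true, h.F, h.hs, h.ht, ?_, ?_⟩
    · change 0 < 1 * T.x; omega
    · change 1 * T.x < A.h
      have := h.x1; rw [abs_of_pos h0] at this; omega

theorem TL.big (h : TL T) : Big A := by
  apply big_of
  have h1 := Pool.Agent.H78.HL.W_le_D h
  have h2 := W2 A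
  have h3 : (A.p : ℤ) < A.q := by exact_mod_cast A.pq
  linarith

theorem OV.on {sx : ℤ} (d : ST A T sx) {n U S : ℤ} (o : OV T n U S) : ON A T n U S (th A n) := by
  have hq := A.q_pos'
  obtain ⟨m, f, s', c, hU, hS, f0, f1⟩ := o.cn.cls
  have key : ∀ {M k : ℤ}, -(A.q * k) < A.q * M + f → A.q * M + f < A.q * k → -k ≤ M ∧ M < k := by
    intro M k a b
    constructor
    · by_contra hc
      have : A.q * (M + k + 1) ≤ A.q * 0 := mul_le_mul_of_nonneg_left (by omega) hq.le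
      nlinarith
    · by_contra hc
      have : A.q * 0 ≤ A.q * (M - k) := mul_le_mul_of_nonneg_left (by omega) hq.le
      nlinarith
  have e2 : U + S = A.q * (m + s') + f := by rw [hU, hS]; ring
  have u0 := o.U0
  have u1 := o.U1
  have v0 := o.V0
  have v1 := o.V1
  rw [hU] at u0 u1
  rw [e2] at v0 v1
  have := on_of d (i := n) (m := m) (f := f) (s := s') ⟨c, o.nt, (key u0 u1).1, (key u0 u1).2,
    (key v0 v1).1, (key v0 v1).2⟩
  rw [hU, hS]
  exact this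

end Pool.Agent.H98.HL
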