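import Pool.Agent.H98.HL.Go

/-!
# Tall rectangles: facts and row classes for the cells which are not of type F
-/

namespace Pool.Agent.H98.HL

open Pool.Agent.H78.RT
open Pool.Agent.H78.Tie
open Pool.Agent.H78.Tie.TAp
open Pool.Agent.H81.AP (LF add smul dot dot_nil dot_nil' dot_cons dot_add dot_smul AllNn AllNe)
open Pool.Agent.H23.DT (AllNn.append)
open Pool.Agent.H78.SV (ST env rT rP sgv bT)
open Pool.Agent.H78.HL (TL OV FT Win)

variable {A : TAp} {T : A.Tie}

/-- `un`: `U < 0`, `vn`: `V < 0` -/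
def fN (xp un vn : Bool) : List LF :=
  [[0, 0, -1, 1], [0, 0, -1, 1, 0, -(sgv xp)], [-1, 0, 0, 0, 1, 0, 0, 0, -1],
   [-1, 0, 0, 0, 0, 0, 0, 0, 1]] ++
  ((match un with
   | true => [[-2, 0, 1, 0, 0, 0, 0, 0, 0, 0, 1], [-2, 0, 0, 0, 0, 0, 0, 0, 0, 0, -1]]
   | false => [[-2, 0, 1, 0, 0, 0, 0, 0, 0, 0, -1], [-2, 0, 0, 0, 0, 0, 0, 0, 0, 0, 1]]) ++
  (match vn with
   | false => [[-2, 0, 0, 1, 0, 0, 0, 0, 0, -1, -1], [-2, 0, 0, 0, 0, 0, 0, 0, 0, 1, 1]]
   | true => [[-2, 0, 0, 1, 0, 0, 0, 0, 0, 1, 1], [-2, 0, 0, 0, 0, 0, 0, 0, 0, -1, -1]]))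

/-- `hi`: the bound of the free wall is `T` (else `D - T`), `fr`: the wall is free -/
def fF (hi fr : Bool) : List LF :=
  match hi, fr with
  | true, true => [[-1, 0, 0, 0, 0, 0, 1, 0, -1]]
  | true, false => [[-1, 0, 0, 0, 0, 0, -1, 0, 1]]
  | false, true => [[-1, 0, 0, 0, -1, 0, 1, 0, 1]]
  | false, false => [[-1, 0, 0, 0, 1, 0, -1, 0, -1]]

/-- regions -/
def fR : Nat → List LF
  | 0 => [[-1, 0, -1, -1, 1]]
  | 1 => [[-1, 0, 0, -1, 1], [-1, 0, 1, 1, -1], [0, 1, -2, -2, 0, 0, 0, -1]]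
  | 2 => [[-1, 0, 0, -1, 1], [-1, 0, 1, 1, -1], [0, -1, 2, 2]]
  | 3 => [[-1, 0, -1, 0, 1], [-1, 0, 0, 1, -1], [0, 1, -2, -2, 0, 0, 0, -1]]
  | 4 => [[-1, 0, -1, 0, 1], [-1, 0, 0, 1, -1], [0, -1, 2, 2]]
  | _ => [[-1, 0, -1, 0, 1], [-1, 0, 0, 1, -1]]

theorem hwx {xp : Bool} (h : TL T) (d : ST A T (sgv xp)) :
    A.q * (A.w : ℤ) + sgv xp * (A.q * T.x) ≤ A.q * A.h := by
  have h1 : (A.w : ℤ) + sgv xp * T.x ≤ A.h := by
    have h2 := h.hw
    have h3 : sgv xp * T.x ≤ |T.x| := by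
      cases xp
      · change -1 * T.x ≤ |T.x|
        have := neg_le_abs T.x
        linarith
      · change 1 * T.x ≤ |T.x|
        have := le_abs_self T.x
        linarith
    linarith
  have := mul_le_mul_of_nonneg_left h1 A.q_pos'.le
  linarith

theorem fN_ok {xp un vn : Bool} (h : TL T) (d : ST A T (sgv xp)) {n U S : ℤ}
    (on : ON A T n U S (th A n)) (hu : un = true → U < 0) (hu' : un = false → 0 < U)
    (hv : vn = true → U + S < 0) (hv' : vn = false → 0 < U + S) :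
    Fct A T n U S (fN xp un vn) := by
  intro r
  have hx := hwx h d
  have f9 := d.facts.2.2.2.2.2.2.2.2.1
  have hq := A.q_pos'
  have t0 := on.t0
  have t1 := on.t1
  have u0 := on.u0
  have u1 := on.u1
  have v0 := on.v0
  have v1 := on.v1
  unfold fN
  refine AllNn.append ?_ (AllNn.append ?_ ?_)
  · unfold env
    simp only [AllNn, dot_cons, dot_nil]
    refine ⟨?_, ?_, ?_, ?_, trivial⟩ <;> linarith
  · cases un
    · have h2 := hu' rfl
      have h3 : 2 ≤ U := by rcases on.u with h | h <;> linarith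
      unfold env
      simp only [AllNn, dot_cons, dot_nil]
      refine ⟨?_, ?_, trivial⟩ <;> linarith
    · have h2 := hu rfl
      have h3 : U + 2 ≤ 0 := by rcases on.u with h | h <;> linarith
      unfold env
      simp only [AllNn, dot_cons, dot_nil]
      refine ⟨?_, ?_, trivial⟩ <;> linarith
  · cases vn
    · have h2 := hv' rfl
      have h3 : 2 ≤ U + S := by rcases on.v with h | h <;> linarith
      unfold env
      simp only [AllNn, dot_cons, dot_nil]
      refine ⟨?_, ?_, trivial⟩ <;> linarith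
    · have h2 := hv rfl
      have h3 : U + S + 2 ≤ 0 := by rcases on.v with h | h <;> linarith
      unfold env
      simp only [AllNn, dot_cons, dot_nil]
      refine ⟨?_, ?_, trivial⟩ <;> linarith

/-- the existence of a class of the row `SF / q` -/
def JOK (A : TAp) (T : A.Tie) (SF : LF) : Prop :=
  ∃ k : ℤ, ¬ (A.p : ℤ) ∣ k ∧ ∀ r, dot SF (1 :: env A T r) = A.q * k

theorem w_lt {T : A.Tie} (h : TL T) : (A.w : ℤ) < A.h := by
  have h1 := h.hw
  have h2 : 0 < |T.x| := abs_pos.2 h.x0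
  omega

theorem jH (_h : TL T) : JOK A T [0, 0, 0, 1] := by
  refine ⟨A.h, not_dvd_of ?_ ?_, fun r => ?_⟩
  · have := A.hh; omega
  · have := A.h2; omega
  · unfold env; simp only [dot_cons, dot_nil]; ring

theorem jHW (h : TL T) : JOK A T [0, 0, -1, 1] := by
  have h1 := w_lt h
  refine ⟨A.h - A.w, not_dvd_of ?_ ?_, fun r => ?_⟩
  · omega
  · have := A.h2; omega
  · unfold env; simp only [dot_cons, dot_nil]; ring

theorem jWH (h : TL T) : JOK A T [0, 0, 1, -1] := by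
  have h1 := w_lt h
  refine ⟨-(A.h - A.w), ?_, fun r => ?_⟩
  · rw [dvd_neg]
    refine not_dvd_of ?_ ?_
    · omega
    · have := A.h2; omega
  · unfold env; simp only [dot_cons, dot_nil]; ring

theorem jHX (h : TL T) : JOK A T [0, 0, 0, 1, 0, -1] := by
  have h1 := abs_lt.1 h.x1
  refine ⟨A.h - T.x, not_dvd_of ?_ ?_, fun r => ?_⟩
  · omega
  · have := A.h2; omega
  · unfold env; simp only [dot_cons, dot_nil]; ring

theorem jq (_h : TL T) : JOK A T [0, 0, 0, 0, 0, 0, 0, 1] := by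
  refine ⟨1, not_dvd_of ?_ ?_, fun r => ?_⟩
  · omega
  · have := A.h2; have := A.hh; omega
  · unfold env; simp only [dot_cons, dot_nil]; ring

theorem jqH (_h : TL T) : JOK A T [0, 0, 0, 1, 0, 0, 0, 1] := by
  refine ⟨1 + A.h, not_dvd_of ?_ ?_, fun r => ?_⟩
  · omega
  · have := A.h2; have := A.hh; omega
  · unfold env; simp only [dot_cons, dot_nil]; ring

theorem j2 (_h : TL T) : JOK A T [0, 0, 0, 0, 0, 0, 0, 2] := by
  refine ⟨2, not_dvd_of ?_ ?_, fun r => ?_⟩
  · omega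
  · have := A.h2; have := A.hh; omega
  · unfold env; simp only [dot_cons, dot_nil]; ring

theorem jX (h : TL T) : JOK A T [0, 0, 0, 0, 0, 1] := by
  have h1 := abs_lt.1 h.x1
  have h2 := A.h2
  refine ⟨T.x, ?_, fun r => ?_⟩
  · rcases lt_or_gt_of_ne h.x0 with h0 | h0
    · intro h3
      have h4 : (A.p : ℤ) ∣ -T.x := by rwa [dvd_neg]
      exact not_dvd_of (by omega) (by omega) h4
    · exact not_dvd_of (by omega) (by omega)
  · unfold env; simp only [dot_cons, dot_nil]; ring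

end Pool.Agent.H98.HL
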