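import Pool.Agent.H98.HL.Small

/-!
# Tall rectangles: the classes which are not of type F
-/

namespace Pool.Agent.H98.HL

open Pool.Agent.H78.RT
open Pool.Agent.H78.Tie
open Pool.Agent.H78.Tie.TAp
open Pool.Agent.H81.AP (LF add smul dot dot_nil dot_nil' dot_cons dot_add dot_smul AllNn AllNe)
open Pool.Agent.H23.DT (AllNn.append)
open Pool.Agent.H78.SV (ST env rT rP sgv bT)
open Pool.Agent.H78.HL (TL OV FT Win)

variable {A : TAp} {T : A.Tie}

theorem D_ne {A : TAp} (k : ℤ) : A.D ≠ A.q * k := by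
  intro h
  have h1 := A.hfd
  have h5 := A.hfd2
  have hq := A.q_pos'
  have h2 : A.q * (k - A.md) = A.fd := by
    have : A.D = A.q * A.md + A.fd := rfl
    rw [mul_sub]; linarith
  rcases le_or_gt (k - A.md) 0 with h3 | h3
  · have := mul_le_mul_of_nonneg_left h3 hq.le
    rw [mul_zero] at this; omega
  · have := mul_le_mul_of_nonneg_left (show (1 : ℤ) ≤ k - A.md by omega) hq.le
    rw [mul_one] at this; omega

theorem Fct.mk3 {n U S : ℤ} {F : List LF} (h : ∀ r, AllNn (env A T (th A n :: S :: U :: r)) F) :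
    Fct A T n U S F := h

/-- the size of `N` -/
theorem N_split (A : TAp) : 2 * (A.q * A.w : ℤ) + 2 * (A.q * A.h) + A.q ≤ NN A ∨
    NN A ≤ 2 * (A.q * A.w : ℤ) + 2 * (A.q * A.h) := by
  have hq := A.q_pos'
  have e : NN A = A.q * A.p := by unfold NN; ring
  rcases le_or_gt (2 * (A.w : ℤ) + 2 * A.h + 1) A.p with h | h
  · left
    have := mul_le_mul_of_nonneg_left h hq.le
    rw [e]; linarith
  · right
    have := mul_le_mul_of_nonneg_left (show (A.p : ℤ) ≤ 2 * A.w + 2 * A.h by omega) hq.le
    rw [e]; linarith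

theorem regions (h : TL T) {n U S : ℤ} :
    (A.q * A.h < A.D ∧ (Fct A T n U S (fR 0) ∨ Fct A T n U S (fR 1) ∨ Fct A T n U S (fR 2))) ∨
    (A.D < A.q * A.h ∧ Fct A T n U S (fR 5) ∧ (Fct A T n U S (fR 3) ∨ Fct A T n U S (fR 4))) := by
  have hW := Pool.Agent.H78.HL.W_le_D h
  have hq := A.q_pos'
  rcases lt_or_gt_of_ne (D_ne (A := A) A.h) with h1 | h1
  · right
    have f5 : Fct A T n U S (fR 5) := by
      refine Fct.mk3 fun r => ?_
      unfold fR env
      simp only [AllNn, dot_cons, dot_nil]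
      refine ⟨?_, ?_, trivial⟩ <;> linarith [Int.add_one_le_iff.2 h1, Int.add_one_le_iff.2 hW]
    refine ⟨h1, f5, ?_⟩
    rcases N_split A with h2 | h2
    · left
      refine Fct.mk3 fun r => ?_
      unfold fR env
      simp only [AllNn, dot_cons, dot_nil]
      refine ⟨?_, ?_, ?_, trivial⟩ <;>
        linarith [Int.add_one_le_iff.2 h1, Int.add_one_le_iff.2 hW]
    · right
      refine Fct.mk3 fun r => ?_
      unfold fR env
      simp only [AllNn, dot_cons, dot_nil]
      refine ⟨?_, ?_, ?_, trivial⟩ <;>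
        linarith [Int.add_one_le_iff.2 h1, Int.add_one_le_iff.2 hW]
  · left
    refine ⟨h1, ?_⟩
    rcases lt_or_gt_of_ne (D_ne (A := A) (A.w + A.h)) with h2 | h2
    · rw [mul_add] at h2
      right
      rcases N_split A with h3 | h3
      · left
        refine Fct.mk3 fun r => ?_
        unfold fR env
        simp only [AllNn, dot_cons, dot_nil]
        refine ⟨?_, ?_, ?_, trivial⟩ <;>
          linarith [Int.add_one_le_iff.2 h1, Int.add_one_le_iff.2 h2]
      · right
        refine Fct.mk3 fun r => ?_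
        unfold fR env
        simp only [AllNn, dot_cons, dot_nil]
        refine ⟨?_, ?_, ?_, trivial⟩ <;>
          linarith [Int.add_one_le_iff.2 h1, Int.add_one_le_iff.2 h2]
    · rw [mul_add] at h2
      left
      refine Fct.mk3 fun r => ?_
      unfold fR env
      simp only [AllNn, dot_cons, dot_nil]
      refine ⟨?_, trivial⟩
      linarith [Int.add_one_le_iff.2 h2]

/-- the bound of the free wall -/
theorem fF_ok (h : TL T) {n U S : ℤ} (on : ON A T n U S (th A n)) {hi : Bool}
    (hh : hi = false → (T.ep = 1 ∧ U < 0) ∨ (T.ep = -1 ∧ 0 < U)) :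
    (Fct A T n U S (fF hi true) ∧ (hi = false → A.D < th A n + th A T.t) ∧
      (hi = true → th A n < th A T.t)) ∨ Fct A T n U S (fF hi false) := by
  cases hi
  · rcases lt_or_gt_of_ne (on.pt (Pool.Agent.H78.HL.W_le_D h) (hh rfl)) with h1 | h1
    · right
      refine Fct.mk3 fun r => ?_
      unfold fF env
      simp only [AllNn, dot_cons, dot_nil]
      refine ⟨?_, trivial⟩
      linarith [Int.add_one_le_iff.2 h1]
    · left
      refine ⟨Fct.mk3 fun r => ?_, fun _ => h1, fun h => by cases h⟩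
      unfold fF env
      simp only [AllNn, dot_cons, dot_nil]
      refine ⟨?_, trivial⟩
      linarith [Int.add_one_le_iff.2 h1]
  · rcases lt_or_gt_of_ne on.ne with h1 | h1
    · left
      refine ⟨Fct.mk3 fun r => ?_, fun h => by (cases h), fun _ => h1⟩
      unfold fF env
      simp only [AllNn, dot_cons, dot_nil]
      refine ⟨?_, trivial⟩
      linarith [Int.add_one_le_iff.2 h1]
    · right
      refine Fct.mk3 fun r => ?_
      unfold fF env
      simp only [AllNn, dot_cons, dot_nil]
      refine ⟨?_, trivial⟩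
      linarith [Int.add_one_le_iff.2 h1]

/-- a multiple of `q` -/
theorem mq_split {S k : ℤ} (hS : (A.q : ℤ) ∣ S) :
    S ≤ A.q * k - A.q ∨ S = A.q * k ∨ A.q * k + A.q ≤ S := by
  have hq := A.q_pos'
  obtain ⟨s, rfl⟩ := hS
  rcases lt_trichotomy s k with h | h | h
  · left
    have := mul_le_mul_of_nonneg_left (show s + 1 ≤ k by omega) hq.le
    linarith
  · right; left; rw [h]
  · right; right
    have := mul_le_mul_of_nonneg_left (show k + 1 ≤ s by omega) hq.le
    linarith

theorem OV.mq {n U S : ℤ} (o : OV T n U S) : (A.q : ℤ) ∣ S := by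
  obtain ⟨⟨-, ⟨s, hs, -⟩, -⟩, -⟩ := o.cn
  exact ⟨s, hs⟩

theorem nearF {n U S : ℤ} (h : A.q * A.w - A.q * A.h + A.q ≤ S) :
    Fct A T n U S [[0, 0, -1, 1, 0, 0, 0, -1, 0, 1]] := by
  intro r
  unfold env
  simp only [AllNn, dot_cons, dot_nil]
  refine ⟨?_, trivial⟩
  linarith

theorem farF {n U S : ℤ} (h : S ≤ A.q * A.w - A.q * A.h - A.q) :
    Fct A T n U S [[0, 0, 1, -1, 0, 0, 0, -1, 0, -1]] := by
  intro r
  unfold env
  simp only [AllNn, dot_cons, dot_nil]
  refine ⟨?_, trivial⟩
  linarith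

/-- the index of a class with a small wall -/
theorem small_ne {n U S K U' S' : ℤ} (o : OV T n U S) (ha : U ≤ -A.q) (hK : IsC A K U' S' (th A K))
    (h0 : -(A.q : ℤ) < U') (h1 : U' < 0) : th A n < th A K ∨ th A K < th A n := by
  have hne : K ≠ n := by
    intro e
    rw [e] at hK
    have h2 := dvd_sub o.cn.1.1 hK.1.1
    rw [show A.a * n - U - (A.a * n - U') = U' - U by ring] at h2
    have h3 := Int.le_of_dvd (by linarith) h2
    have := o.U0
    have := NW A
    have := A.q_pos'
    have := W2 A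
    linarith
  rcases lt_or_gt_of_ne hne with h2 | h2
  · exact Or.inr (th_lt A h2)
  · exact Or.inl (th_lt A h2)

end Pool.Agent.H98.HL
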