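import Pool.Agent.H98.HL.Base
import Pool.Agent.H67.NO.Glue

/-!
# Large `d` (single ties): the overlapping class and the auxiliary classes
-/

namespace Pool.Agent.H98.HL

open Pool.Agent.H78.RT
open Pool.Agent.H78.Tie
open Pool.Agent.H78.Tie.TAp
open Pool.Agent.H81.AP (LF add smul dot dot_nil dot_nil' dot_cons dot_add dot_smul AllNn AllNe)
open Pool.Agent.H78.SV (ST env rT rP sgv bT)

variable {A : TAp} {T : A.Tie} {sx : ℤ}

/-- an overlapping class in scaled form -/
structure ON (A : TAp) (T : A.Tie) (i U S θ : ℤ) : Prop where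
  c : IsC A i U S θ
  ne : θ ≠ th A T.t
  t0 : 1 ≤ θ
  t1 : θ + 1 ≤ A.D
  u0 : -(A.q * A.w : ℤ) + 2 ≤ U
  u1 : U + 2 ≤ A.q * A.w
  u : U + 2 ≤ 0 ∨ 2 ≤ U
  v0 : -(A.q * A.h : ℤ) + 2 ≤ U + S
  v1 : U + S + 2 ≤ A.q * A.h
  v : U + S + 2 ≤ 0 ∨ 2 ≤ U + S

theorem on_of (d : ST A T sx) {i m f s : ℤ} (o : T.Ov i m f s) :
    ON A T i (A.q * m + f) (A.q * s) (th A i) := by
  have n2 := d.not_qt o
  obtain ⟨c, n1, m0, m1, v0, v1⟩ := o
  have hq := A.q_pos'
  have hc := IsC.ofCls c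
  have f0 := c.2.2.1
  have f1 := c.2.2.2.1
  have g0 := d.Ugen hc n1 n2 0
  have g1 := d.Ugen hc n1 n2 A.w
  have g2 := d.Ugen hc n1 n2 (-A.w)
  have g3 := d.Ugen hc n1 n2 (-s)
  have g4 := d.Ugen hc n1 n2 (A.h - s)
  have g5 := d.Ugen hc n1 n2 (-A.h - s)
  have a1 : A.q * (m + 1) ≤ A.q * (A.w : ℤ) := mul_le_mul_of_nonneg_left (by omega) hq.le
  have a2 : A.q * (-(A.w : ℤ)) ≤ A.q * m := mul_le_mul_of_nonneg_left (by omega) hq.le
  have a3 : A.q * (m + s + 1) ≤ A.q * (A.h : ℤ) := mul_le_mul_of_nonneg_left (by omega) hq.le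
  have a4 : A.q * (-(A.h : ℤ)) ≤ A.q * (m + s) := mul_le_mul_of_nonneg_left (by omega) hq.le
  rw [mul_add, mul_one] at a1 a3
  rw [mul_neg] at a2 a4 g2 g3
  rw [mul_zero] at g0
  rw [mul_sub] at g4 g5
  rw [mul_neg] at g5
  rw [mul_add] at a3 a4
  refine ⟨hc, ?_, ?_, ?_, ?_, ?_, ?_, ?_, ?_, ?_⟩
  · intro h
    rcases lt_or_gt_of_ne n1 with h1 | h1
    · have := th_lt A h1; omega
    · have := th_lt A h1; omega
  · have := th_pos A c.1; omega
  · have := th_ltD A c.2.1; omega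
  all_goals omega

/-- a representative of the residue class of `s` with `- N ≤ 2 s' ≤ N` and the class of row `k` -/
theorem exRow (A : TAp) {k : ℤ} (hk : ¬ (A.p : ℤ) ∣ k) :
    ∃ j U, IsC A j U (A.q * k) (th A j) ∧ -NN A ≤ 2 * U ∧ 2 * U ≤ NN A := by
  have hp := A.p_pos'
  have h0 := Int.emod_nonneg (A.e' * k) hp.ne'
  have h1 := Int.emod_lt_of_pos (A.e' * k) hp
  have he := Int.emod_add_mul_ediv (A.e' * k) A.p
  have hr : (A.p : ℤ) ∣ A.e * ((A.e' * k) % A.p) - k := by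
    obtain ⟨y, hy⟩ := A.inv
    exact ⟨k * y - A.e * ((A.e' * k) / A.p), by linear_combination k * hy + A.e * he⟩
  have j0 : 0 < (A.e' * k) % (A.p : ℤ) := by
    rcases lt_or_eq_of_le h0 with h | h
    · exact h
    · exfalso
      rw [← h, mul_zero, zero_sub, dvd_neg] at hr
      exact hk hr
  obtain ⟨U, hU, U0, U1⟩ := Pool.Agent.H23.DT.exists_rep (NN_pos A) (A.a * ((A.e' * k) % A.p))
  exact ⟨(A.e' * k) % A.p, U, ⟨Rec.of hU hr, j0, h1⟩, U0, U1⟩

theorem not_dvd_of {p k : ℤ} (h0 : 0 < k) (h1 : k < p) : ¬ p ∣ k := fun h => by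
  have := Int.le_of_dvd h0 h
  omega

/-- the largest and the smallest overlapping class -/
theorem exExt (d : ST A T sx) {i m f s : ℤ} (o : T.Ov i m f s) :
    (∃ j U S, ON A T j U S (th A j) ∧ Ext A T 1 (th A j)) ∧
    (∃ j U S, ON A T j U S (th A j) ∧ Ext A T 2 (th A j)) := by
  classical
  set s : Finset ℤ := (Finset.Ioo 0 (A.p : ℤ)).filter fun i => ∃ m f s, T.Ov i m f s with hs
  have hne : s.Nonempty := ⟨i, by
    rw [hs, Finset.mem_filter, Finset.mem_Ioo]
    exact ⟨⟨o.1.1, o.1.2.1⟩, _, _, _, o⟩⟩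
  have mem : ∀ {i U S θ : ℤ}, IsC A i U S θ → i ≠ T.t → ∀ z z' : ℤ,
      -(A.q * A.w : ℤ) < U - z * NN A → U - z * NN A < A.q * A.w →
      -(A.q * A.h : ℤ) < U + S - z' * NN A → U + S - z' * NN A < A.q * A.h → i ∈ s := by
    intro i U S θ hc nt z z' h1 h2 h3 h4
    have hq := A.q_pos'
    obtain ⟨m, f, s', c, hU, hS, f0, f1⟩ := hc.cls
    have c' : A.Cls i (m - z * A.p) f (s' + z * A.p - z' * A.p) := by
      refine ⟨c.1, c.2.1, f0, f1, ?_, ?_⟩
      · obtain ⟨y, hy⟩ := c.2.2.2.2.1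
        exact ⟨y + z, by linear_combination hy⟩
      · obtain ⟨y, hy⟩ := c.2.2.2.2.2
        exact ⟨y - z + z', by linear_combination hy⟩
    have e1 : U - z * NN A = A.q * (m - z * A.p) + f := by rw [hU]; unfold NN; ring
    have e2 : U + S - z' * NN A = A.q * (m - z * A.p + (s' + z * A.p - z' * A.p)) + f := by
      rw [hU, hS]; unfold NN; ring
    rw [e1] at h1 h2
    rw [e2] at h3 h4
    have key : ∀ {M k : ℤ}, -(A.q * k) < A.q * M + f → A.q * M + f < A.q * k → -k ≤ M ∧ M < k := by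
      intro M k a b
      constructor
      · by_contra hc
        have : A.q * (M + k + 1) ≤ A.q * 0 := mul_le_mul_of_nonneg_left (by omega) hq.le
        nlinarith
      · by_contra hc
        have : A.q * 0 ≤ A.q * (M - k) := mul_le_mul_of_nonneg_left (by omega) hq.le
        nlinarith
    rw [hs, Finset.mem_filter, Finset.mem_Ioo]
    exact ⟨⟨c.1, c.2.1⟩, _, _, _, c', nt, (key h1 h2).1, (key h1 h2).2, (key h3 h4).1,
      (key h3 h4).2⟩
  constructor
  · have h1 := Finset.min'_mem s hne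
    obtain ⟨-, m', f', s', o'⟩ := Finset.mem_filter.1 h1
    refine ⟨_, _, _, on_of d o', fun i U S θ hc nt z z' a b c' d' => ⟨fun _ => ?_, fun h => absurd rfl h⟩⟩
    have := Finset.min'_le s i (mem hc nt z z' a b c' d')
    rw [hc.1.th]
    rcases eq_or_lt_of_le this with h | h
    · rw [h]
    · exact (th_lt A h).le
  · have h1 := Finset.max'_mem s hne
    obtain ⟨-, m', f', s', o'⟩ := Finset.mem_filter.1 h1
    refine ⟨_, _, _, on_of d o', fun i U S θ hc nt z z' a b c' d' => ⟨fun h => by omega, fun _ => ?_⟩⟩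
    have := Finset.le_max' s i (mem hc nt z z' a b c' d')
    rw [hc.1.th]
    rcases eq_or_lt_of_le this with h | h
    · rw [h]
    · exact (th_lt A h).le

/-- `n ≠ p - t` on the side of the bound `D - T` -/
theorem ON.pt {i U S θ : ℤ} (o : ON A T i U S θ) (hD : A.q * A.w < A.D)
    (h : (T.ep = 1 ∧ U < 0) ∨ (T.ep = -1 ∧ 0 < U)) : θ + th A T.t ≠ A.D := by
  intro h1
  have e1 := o.c.1.1
  have e2 := (Rec.tie T).1
  have e3 := A.hd
  have hi : i = A.p - T.t := by
    have h2 := o.c.1.th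
    rw [h2, ← th_p, ← th_add] at h1
    have h3 : ¬ i + T.t < A.p := fun h => by have := th_lt A h; omega
    have h4 : ¬ A.p < i + T.t := fun h => by have := th_lt A h; omega
    omega
  rw [hi] at e1
  have e4 : NN A ∣ A.D - T.ep * (A.q * A.w + A.sg) - U := by
    obtain ⟨x, hx⟩ := e1
    obtain ⟨y, hy⟩ := e2
    obtain ⟨z, hz⟩ := e3
    refine ⟨x + y - z, ?_⟩
    have hz' : A.a * A.p - A.D = NN A * z := by
      have : A.D = A.q * A.md + A.fd := rfl
      rw [this]; unfold NN; linear_combination hz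
    linear_combination hx + hy - hz'
  have hW := W2 A
  have hN := NW A
  have hq := q6 A
  have hND := ND A
  have u0 := o.u0
  have u1 := o.u1
  have hsg := A.hsg
  rcases h with ⟨he, hu⟩ | ⟨he, hu⟩ <;> rw [he] at e4
  · have := dvd_zero_of e4 (by rcases hsg with h | h <;> rw [h] <;> linarith)
      (by rcases hsg with h | h <;> rw [h] <;> linarith)
    rcases hsg with h | h <;> rw [h] at this <;> linarith
  · have e5 : NN A ∣ A.D + A.q * A.w + A.sg - U - NN A := by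
      have := dvd_sub e4 (dvd_refl (NN A))
      rwa [show A.D - -1 * (A.q * A.w + A.sg) - U - NN A = A.D + A.q * A.w + A.sg - U - NN A by
        ring] at this
    rcases le_or_gt 0 (A.D + A.q * A.w + A.sg - U - NN A) with h0 | h0
    · rcases hsg with h | h <;> rw [h] at h0 <;> linarith
    · have := dvd_zero_of e5 (by rcases hsg with h | h <;> rw [h] <;> linarith) (by linarith [NN_pos A])
      omega

end Pool.Agent.H98.HL
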