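import Pool.Agent.H98.HL.NB

/-!
# Tall rectangles: a class with a small left wall
-/

namespace Pool.Agent.H98.HL

open Pool.Agent.H78.RT
open Pool.Agent.H78.Tie
open Pool.Agent.H78.Tie.TAp
open Pool.Agent.H81.AP (LF add smul dot dot_nil dot_nil' dot_cons dot_add dot_smul AllNn AllNe)
open Pool.Agent.H23.DT (AllNn.append)
open Pool.Agent.H78.SV (ST env rT rP sgv bT)
open Pool.Agent.H78.HL (TL OV FT Win)

variable {A : TAp} {T : A.Tie}

/-- the pigeonhole principle on the walls of the classes -/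
theorem exSmall (A : TAp) : ∃ K U S : ℤ, IsC A K U S (th A K) ∧ U ≠ 0 ∧ -(A.q : ℤ) < U ∧ U < A.q := by
  classical
  have hq := A.q_pos'
  have hp := A.p_pos'
  have hN := NN_pos A
  have mk : ∀ K U : ℤ, 0 < K → K < A.p → NN A ∣ A.a * K - U → -(A.q : ℤ) < U → U < A.q →
      ∃ K U S : ℤ, IsC A K U S (th A K) ∧ U ≠ 0 ∧ -(A.q : ℤ) < U ∧ U < A.q := by
    intro K U h0 h1 h2 h3 h4
    refine ⟨K, U, A.q * (A.e * K), ⟨⟨h2, ⟨A.e * K, rfl, by simp⟩, th_eq A K⟩, h0, h1⟩, ?_, h3, h4⟩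
    intro h
    rw [h, sub_zero] at h2
    refine A.gen K h0.ne' ?_ ((dvd_mul_left (A.q : ℤ) A.p).trans h2)
    rw [abs_of_pos h0]; exact h1.le
  set f : ℕ → ℕ := fun i => ((A.a * (i : ℤ) % NN A) / A.q).toNat with hf
  have r0 : ∀ i : ℕ, 0 ≤ A.a * (i : ℤ) % NN A := fun i => Int.emod_nonneg _ hN.ne'
  have r1 : ∀ i : ℕ, A.a * (i : ℤ) % NN A < NN A := fun i => Int.emod_lt_of_pos _ hN
  have rd : ∀ i : ℕ, NN A ∣ A.a * (i : ℤ) - A.a * (i : ℤ) % NN A := fun i => Int.dvd_self_sub_emod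
  have f0 : ∀ i : ℕ, 0 ≤ (A.a * (i : ℤ) % NN A) / A.q := fun i => Int.ediv_nonneg (r0 i) hq.le
  have fc : ∀ i : ℕ, ((f i : ℕ) : ℤ) = (A.a * (i : ℤ) % NN A) / A.q := fun i =>
    Int.toNat_of_nonneg (f0 i)
  have fl : ∀ i : ℕ, A.q * (f i : ℤ) ≤ A.a * (i : ℤ) % NN A ∧
      A.a * (i : ℤ) % NN A < A.q * (f i : ℤ) + A.q := by
    intro i
    have h1 := Int.emod_add_mul_ediv (A.a * (i : ℤ) % NN A) A.q
    have h2 := Int.emod_nonneg (A.a * (i : ℤ) % NN A) hq.ne'
    have h3 := Int.emod_lt_of_pos (A.a * (i : ℤ) % NN A) hq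
    rw [← fc i] at h1
    constructor <;> linarith
  by_cases hb : ∃ i : ℕ, i < A.p ∧ A.p ≤ f i + 1
  · obtain ⟨i, hi, hfi⟩ := hb
    have e := fl i
    have h1 := r1 i
    have h2 : A.q * (A.p : ℤ) ≤ A.q * ((f i : ℤ) + 1) :=
      mul_le_mul_of_nonneg_left (by exact_mod_cast hfi) hq.le
    have h3 : NN A = A.q * A.p := by unfold NN; ring
    have hi0 : (0 : ℤ) < i := by
      rcases Nat.eq_zero_or_pos i with h | h
      · exfalso
        rw [h] at e h1
        have h5 : A.a * ((0 : ℕ) : ℤ) % NN A = 0 := by simp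
        rw [h5] at e
        have h4 : (2 : ℤ) ≤ A.p := by have := A.h2; have := A.hh; omega
        have h6 : A.q * 2 ≤ A.q * (A.p : ℤ) := mul_le_mul_of_nonneg_left h4 hq.le
        rw [h] at h2
        linarith [e.1]
      · exact_mod_cast h
    have hne : A.a * (i : ℤ) % NN A - NN A ≠ -A.q := by
      intro h
      refine A.gen i hi0.ne' (by rw [abs_of_pos hi0]; exact_mod_cast hi.le) ?_
      have h5 : (A.q : ℤ) ∣ A.a * (i : ℤ) - A.a * (i : ℤ) % NN A :=
        (dvd_mul_left (A.q : ℤ) A.p).trans (rd i)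
      have h6 : A.a * (i : ℤ) = (A.a * (i : ℤ) - A.a * (i : ℤ) % NN A) + (NN A - A.q) := by linarith
      rw [h6]
      refine dvd_add h5 ?_
      rw [h3]
      exact ⟨A.p - 1, by ring⟩
    refine mk i (A.a * (i : ℤ) % NN A - NN A) hi0 (by exact_mod_cast hi) ?_ ?_ ?_
    · have := dvd_add (rd i) (dvd_refl (NN A))
      rwa [show A.a * (i : ℤ) - A.a * (i : ℤ) % NN A + NN A =
        A.a * (i : ℤ) - (A.a * (i : ℤ) % NN A - NN A) by ring] at this
    · rcases lt_or_eq_of_le (show -(A.q : ℤ) ≤ A.a * (i : ℤ) % NN A - NN A by linarith [e.1]) with h | h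
      · exact h
      · exact absurd h.symm hne
    · linarith
  · push Not at hb
    obtain ⟨i, hi, j, hj, hij, hfij⟩ := Finset.exists_ne_map_eq_of_card_lt_of_maps_to
      (s := Finset.range A.p) (t := Finset.range (A.p - 1)) (f := f) (by
        simp only [Finset.card_range]
        have : 0 < A.p := by exact_mod_cast hp
        omega) (by
        intro i hi
        have hi' : i < A.p := by simpa using hi
        have := hb i hi'
        simp only [Finset.coe_range, Set.mem_Iio]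
        omega)
    have key : ∀ i j : ℕ, i < A.p → j < A.p → i < j → f i = f j →
        ∃ K U S : ℤ, IsC A K U S (th A K) ∧ U ≠ 0 ∧ -(A.q : ℤ) < U ∧ U < A.q := by
      intro i j hi hj hij hf
      have e1 := fl i
      have e2 := fl j
      rw [hf] at e1
      refine mk ((j : ℤ) - i) (A.a * (j : ℤ) % NN A - A.a * (i : ℤ) % NN A) ?_ ?_ ?_ ?_ ?_
      · have : (i : ℤ) < j := by exact_mod_cast hij
        linarith
      · have : (j : ℤ) < A.p := by exact_mod_cast hj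
        have : (0 : ℤ) ≤ i := by positivity
        linarith
      · have := dvd_sub (rd j) (rd i)
        rwa [show A.a * (j : ℤ) - A.a * (j : ℤ) % NN A - (A.a * (i : ℤ) - A.a * (i : ℤ) % NN A) =
          A.a * ((j : ℤ) - i) - (A.a * (j : ℤ) % NN A - A.a * (i : ℤ) % NN A) by ring] at this
      · linarith [e1.1, e1.2, e2.1, e2.2]
      · linarith [e1.1, e1.2, e2.1, e2.2]
    rw [Finset.mem_range] at hi hj
    rcases lt_or_gt_of_ne hij with h | h
    · exact key i j hi hj h hfij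
    · exact key j i hj hi h hfij.symm

/-- `c`: the left wall is at least `q` -/
def fa (c : Bool) : List LF :=
  match c with
  | false => [[-1, 0, 0, 0, 0, 0, 0, 1, 0, 0, 1]]
  | true => [[0, 0, 0, 0, 0, 0, 0, -1, 0, 0, -1]]

def fP1 : List LF := [[-1, 0, 0, 0, 0, 0, 0, 1, 0, 0, 0, 0, 0, -1],
  [-1, 0, 0, 0, 0, 0, 0, 0, 0, 0, 0, 0, 0, 1]]

def fP2 : List LF := [[-1, 0, 0, 0, 0, 0, 0, 0, -1, 0, 0, 1],
  [-1, 0, 0, 0, 0, 0, 0, 1, 0, 0, 0, 0, 0, 1], [-1, 0, 0, 0, 0, 0, 0, 0, 0, 0, 0, 0, 0, -1]]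

def fP3 : List LF := [[-1, 0, 0, 0, 0, 0, 0, 0, 1, 0, 0, -1],
  [-1, 0, 0, 0, 0, 0, 0, 1, 0, 0, 0, 0, 0, 1], [-1, 0, 0, 0, 0, 0, 0, 0, 0, 0, 0, 0, 0, -1]]

theorem fP1_ok {n U S K U' : ℤ} (h0 : 0 < U') (h1 : U' < A.q) (S'' : ℤ) :
    AllNn (env A T [th A n, S, U, th A K, S'', U']) fP1 := by
  unfold fP1 env
  simp only [AllNn, dot_cons, dot_nil]
  refine ⟨?_, ?_, trivial⟩ <;> linarith [Int.add_one_le_iff.2 h0, Int.add_one_le_iff.2 h1]

theorem fP2_ok {n U S K U' : ℤ} (h0 : U' < 0) (h1 : -(A.q : ℤ) < U') (h2 : th A n < th A K) (S'' : ℤ) :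
    AllNn (env A T [th A n, S, U, th A K, S'', U']) fP2 := by
  unfold fP2 env
  simp only [AllNn, dot_cons, dot_nil]
  refine ⟨?_, ?_, ?_, trivial⟩ <;> linarith [Int.add_one_le_iff.2 h0, Int.add_one_le_iff.2 h1,
    Int.add_one_le_iff.2 h2]

theorem fP3_ok {n U S K U' : ℤ} (h0 : U' < 0) (h1 : -(A.q : ℤ) < U') (h2 : th A K < th A n) (S'' : ℤ) :
    AllNn (env A T [th A n, S, U, th A K, S'', U']) fP3 := by
  unfold fP3 env
  simp only [AllNn, dot_cons, dot_nil]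
  refine ⟨?_, ?_, ?_, trivial⟩ <;> linarith [Int.add_one_le_iff.2 h0, Int.add_one_le_iff.2 h1,
    Int.add_one_le_iff.2 h2]

theorem qrange {U' : ℤ} (h0 : -(A.q : ℤ) < U') (h1 : U' < A.q) :
    -NN A ≤ 2 * U' ∧ 2 * U' ≤ NN A := by
  have h1 := NW A
  have h2 := A.q_pos'
  have h3 := W2 A
  constructor <;> linarith

/-- a fact on `n` -/
theorem Fct.a {n U S : ℤ} : Fct A T n U S (fa true) ∧ U ≤ -A.q ∨ Fct A T n U S (fa false) := by
  rcases le_or_gt U (-A.q) with h | h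
  · left
    refine ⟨fun r => ?_, h⟩
    unfold fa env
    simp only [AllNn, dot_cons, dot_nil]
    refine ⟨?_, trivial⟩
    linarith
  · right
    intro r
    unfold fa env
    simp only [AllNn, dot_cons, dot_nil]
    refine ⟨?_, trivial⟩
    linarith [Int.add_one_le_iff.2 h]

end Pool.Agent.H98.HL
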